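import Mathlib

/-!
# Dense orbits along `R_e`-sequences in minimal nilsystems: the core of the proof

`main_top`: let `A` be an `R_e`-sequence, `G` a nilpotent, locally compact, locally connected
topological group with a second countable open neighbourhood of `1`, `Γ` a closed cocompact subgroup
and `a ∈ G` such that `x ↦ a • x` is minimal on `G ⧸ Γ`. Then some point of `G ⧸ Γ` has a dense orbit
along `A`.

Outline of the proof.  Let `A` be an `R_e`-sequence.
* `dual`: characters separate the points of a compact Hausdorff abelian group.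
* `sweep`: if `θ : H → K` is a homomorphism into a compact abelian group such that, for every
  nontrivial character `χ` of `K`, the `n`-th powers of `χ ∘ θ` on small neighbourhoods of `1` reach
  `-1` for all large `n`, then the sets `θ (B) ^ n` become uniformly dense in `K`.
* `char_Del_trivial`: the hypothesis of `sweep` holds for the fibre group
  `closure (G_j Γ) / closure (G_(j+1) Γ)` and `θ h = ⁅a, h⁆`, `h ∈ G_(j-1)`.
* `transMod_step`: transitivity along `A` passes from `G / closure (G_j Γ)` to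
  `G / closure (G_(j+1) Γ)`.
* `transMod_one`: the maximal equicontinuous factor is handled by the definition of `R_e`-sequences.
* `main_top`: a Baire category argument.
-/

set_option linter.unusedSectionVars false
set_option linter.overlappingInstances false
set_option linter.unusedTactic false

open Topology Filter Set MeasureTheory
open scoped commutatorElement ENNReal InnerProductSpace

namespace Pool.Agent.helper71.NilCore

/-! ## Definitions -/

/-- The orbit of `x` along `A` under iteration of `T`. -/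
def orbitAlong {X : Type*} (T : X → X) (A : Set ℕ) (x : X) : Set X :=
  {y | ∃ n ∈ A, T^[n] x = y}

/-- `T` is minimal: `{T^n x : n = 1, 2, 3, …}` is dense for every `x`. -/
def IsMinimalMap {X : Type*} [TopologicalSpace X] (T : X → X) : Prop :=
  ∀ x : X, Dense (orbitAlong T {n | 1 ≤ n} x)

/-- `A` is an `R_e`-sequence. -/
def IsReSequence (A : Set ℕ) : Prop :=
  ∀ (X : Type) [MetricSpace X] [CompactSpace X] [Nonempty X] (T : X → X),
    Continuous T → Function.Surjective T → IsMinimalMap T →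
      Equicontinuous (fun n : ℕ => T^[n]) → ∃ x : X, Dense (orbitAlong T A x)

/-! ## Sanity check: the set of all positive integers is an `R_e`-sequence -/

theorem isReSequence_pos : IsReSequence {n | 1 ≤ n} := by
  intro X _ _ hX T _ _ hmin _
  exact ⟨Classical.choice hX, hmin _⟩

/-! ## Characters of compact abelian groups -/

/-- abstract Gelfand lemma -/
theorem exists_character {B : Type*} [CStarAlgebra B] {S : Set B}
    (hcomm : ∀ x ∈ S, ∀ y ∈ S, x * y = y * x)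
    (hstar : ∀ x ∈ S, ∀ y ∈ S, x * star y = star y * x) {w : B}
    (hw : w ∈ StarAlgebra.adjoin ℂ S) (hw0 : w ≠ 0) :
    ∃ φ : StarAlgebra.adjoin ℂ S →ₐ[ℂ] ℂ, (∀ x, ‖φ x‖ ≤ ‖(x : B)‖) ∧ φ ⟨w, hw⟩ ≠ 0 := by
  let A : StarSubalgebra ℂ B := (StarAlgebra.adjoin ℂ S).topologicalClosure
  have hA : IsClosed (A : Set B) := (StarAlgebra.adjoin ℂ S).isClosed_topologicalClosure
  have hmc : IsMulCommutative (StarAlgebra.adjoin ℂ S) :=
    StarAlgebra.isMulCommutative_adjoin ℂ hcomm hstar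
  let _ : CommRing A := (StarAlgebra.adjoin ℂ S).commRingTopologicalClosure
    (fun x y => hmc.is_comm.comm x y)
  let _ : CStarAlgebra A := StarSubalgebra.cstarAlgebra A (h_closed := hA)
  let _ : CommCStarAlgebra A := { mul_comm := mul_comm }
  have hle : StarAlgebra.adjoin ℂ S ≤ A := StarSubalgebra.le_topologicalClosure _
  let w' : A := ⟨w, hle hw⟩
  have hw'0 : w' ≠ 0 := by
    intro h
    apply hw0
    exact congrArg Subtype.val h
  have hiso := gelfandTransform_isometry A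
  have hne : WeakDual.gelfandTransform ℂ A w' ≠ 0 := by
    intro h
    apply hw'0
    apply hiso.injective
    rw [h, map_zero]
  obtain ⟨φ, hφ⟩ : ∃ φ : WeakDual.characterSpace ℂ A, φ w' ≠ 0 := by
    by_contra hcon
    push Not at hcon
    apply hne
    ext φ
    exact hcon φ
  let ι : StarAlgebra.adjoin ℂ S →⋆ₐ[ℂ] A := StarSubalgebra.inclusion hle
  refine ⟨(WeakDual.CharacterSpace.toAlgHom φ).comp ι.toAlgHom, ?_, ?_⟩
  · intro x
    have : Nontrivial A := ⟨⟨w', 0, hw'0⟩⟩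
    exact AlgHom.norm_apply_le_self (WeakDual.CharacterSpace.toAlgHom φ) (ι x)
  · exact hφ


section reg

variable {K : Type*} [CommGroup K] [TopologicalSpace K] [IsTopologicalGroup K]
  [CompactSpace K] [T2Space K] [MeasurableSpace K] [BorelSpace K]
  (μ : Measure K) [μ.IsHaarMeasure] [μ.Regular]

/-- translation operator -/
noncomputable def lam (k : K) : Lp ℂ 2 μ →L[ℂ] Lp ℂ 2 μ :=
  LinearMap.mkContinuous
    { toFun := fun f => DomMulAct.mk k • f
      map_add' := fun f g => smul_add _ f g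
      map_smul' := fun c f => (smul_comm c (DomMulAct.mk k) f).symm }
    1 (by intro f; simp)

theorem lam_apply (k : K) (f : Lp ℂ 2 μ) : lam μ k f = DomMulAct.mk k • f := rfl

theorem lam_mul (k l : K) : lam μ (k * l) = lam μ k * lam μ l := by
  ext1 f
  change DomMulAct.mk (k * l) • f = DomMulAct.mk k • DomMulAct.mk l • f
  rw [← mul_smul, ← DomMulAct.mk_mul, mul_comm]

theorem lam_one : lam μ (1 : K) = 1 := by
  ext1 f
  simp [lam_apply]

theorem norm_lam_le (k : K) : ‖lam μ k‖ ≤ 1 :=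
  LinearMap.mkContinuous_norm_le _ zero_le_one _

theorem continuous_lam_apply (f : Lp ℂ 2 μ) : Continuous fun k => lam μ k f := by
  have : Fact ((2 : ℝ≥0∞) ≠ ∞) := ⟨by norm_num⟩
  have : Continuous fun k : K => DomMulAct.mk k • f := by
    have h1 : Continuous fun k : K => (DomMulAct.mk k : Kᵈᵐᵃ) := DomMulAct.continuous_mk
    exact h1.smul continuous_const
  exact this

/-- convolution type operator -/
noncomputable def conv (u : C(K, ℂ)) : Lp ℂ 2 μ →L[ℂ] Lp ℂ 2 μ :=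
  LinearMap.mkContinuous
    { toFun := fun f => ∫ k, u k • lam μ k f ∂μ
      map_add' := by
        intro f g
        rw [← integral_add]
        · simp
        · exact Continuous.integrable_of_hasCompactSupport
            (u.continuous.smul (continuous_lam_apply μ f)) (HasCompactSupport.of_compactSpace _)
        · exact Continuous.integrable_of_hasCompactSupport
            (u.continuous.smul (continuous_lam_apply μ g)) (HasCompactSupport.of_compactSpace _)
      map_smul' := by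
        intro c f
        simp only [RingHom.id_apply, map_smul]
        rw [← integral_smul]
        congr 1
        ext1 k
        rw [smul_comm] }
    (‖u‖ * (μ univ).toReal) (by
      intro f
      simp only [LinearMap.coe_mk, AddHom.coe_mk]
      have := norm_integral_le_of_norm_le_const (μ := μ) (f := fun k => u k • lam μ k f)
        (C := ‖u‖ * ‖f‖) (by
          refine Eventually.of_forall fun k => ?_
          rw [norm_smul]
          gcongr
          · exact u.norm_coe_le_norm k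
          · calc ‖lam μ k f‖ ≤ ‖lam μ k‖ * ‖f‖ := ContinuousLinearMap.le_opNorm _ _
              _ ≤ 1 * ‖f‖ := by gcongr; exact norm_lam_le μ k
              _ = ‖f‖ := one_mul _)
      calc _ ≤ _ := this
        _ = _ := by simp [Measure.real]; ring)

theorem conv_apply (u : C(K, ℂ)) (f : Lp ℂ 2 μ) : conv μ u f = ∫ k, u k • lam μ k f ∂μ := rfl

theorem norm_conv_le (u : C(K, ℂ)) : ‖conv μ u‖ ≤ ‖u‖ * (μ univ).toReal :=
  LinearMap.mkContinuous_norm_le _ (by positivity) _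

theorem integrable_aux (u : C(K, ℂ)) (f : Lp ℂ 2 μ) : Integrable (fun k => u k • lam μ k f) μ :=
  Continuous.integrable_of_hasCompactSupport
            (u.continuous.smul (continuous_lam_apply μ f)) (HasCompactSupport.of_compactSpace _)

/-- anything commuting with all translations commutes with `conv` -/
theorem conv_comm (u : C(K, ℂ)) (C : Lp ℂ 2 μ →L[ℂ] Lp ℂ 2 μ) (hC : ∀ k, C * lam μ k = lam μ k * C) :
    C * conv μ u = conv μ u * C := by
  ext1 f
  change C (∫ k, u k • lam μ k f ∂μ) = ∫ k, u k • lam μ k (C f) ∂μ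
  rw [← ContinuousLinearMap.integral_comp_comm _ (integrable_aux μ u f)]
  congr 1
  ext1 k
  rw [map_smul]
  congr 1
  exact congrArg (fun T : Lp ℂ 2 μ →L[ℂ] Lp ℂ 2 μ => T f) (hC k)

theorem inner_lam (k : K) (x y : Lp ℂ 2 μ) :
    inner ℂ (lam μ k x) (lam μ k y) = inner ℂ x y := by
  let L : Lp ℂ 2 μ →ₗᵢ[ℂ] Lp ℂ 2 μ := ⟨(lam μ k).toLinearMap, fun f => by
    change ‖DomMulAct.mk k • f‖ = ‖f‖
    simp⟩
  exact L.inner_map_map x y

theorem star_lam (k : K) : star (lam μ k) = lam μ k⁻¹ := by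
  rw [ContinuousLinearMap.star_eq_adjoint]
  symm
  rw [ContinuousLinearMap.eq_adjoint_iff]
  intro x y
  rw [← inner_lam μ k]
  congr 1
  change (lam μ k * lam μ k⁻¹) x = x
  rw [← lam_mul, mul_inv_cancel, lam_one]
  rfl

/-- translated function -/
noncomputable def tr (u : C(K, ℂ)) (l : K) : C(K, ℂ) := ⟨fun k => u (l⁻¹ * k), by fun_prop⟩

theorem lam_mul_conv (u : C(K, ℂ)) (l : K) : lam μ l * conv μ u = conv μ (tr u l) := by
  ext1 f
  change lam μ l (∫ k, u k • lam μ k f ∂μ) = ∫ k, u (l⁻¹ * k) • lam μ k f ∂μ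
  rw [← ContinuousLinearMap.integral_comp_comm _ (integrable_aux μ u f)]
  rw [← integral_mul_left_eq_self (fun k => u (l⁻¹ * k) • lam μ k f) l]
  congr 1
  ext1 k
  rw [map_smul, inv_mul_cancel_left, lam_mul]
  rfl

theorem conv_sub (u v : C(K, ℂ)) : conv μ u - conv μ v = conv μ (u - v) := by
  ext1 f
  change (∫ k, u k • lam μ k f ∂μ) - (∫ k, v k • lam μ k f ∂μ) = ∫ k, (u k - v k) • lam μ k f ∂μ
  rw [← integral_sub (integrable_aux μ u f) (integrable_aux μ v f)]
  congr 1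
  ext1 k
  rw [sub_smul]

theorem continuous_tr (u : C(K, ℂ)) : Continuous (fun l => tr u l) := by
  let F : C(K × K, ℂ) := ⟨fun p => u (p.1⁻¹ * p.2), by fun_prop⟩
  exact F.curry.continuous

theorem continuous_lam_mul_conv (u : C(K, ℂ)) : Continuous (fun l => lam μ l * conv μ u) := by
  have h : ∀ v w : C(K, ℂ), ‖conv μ v - conv μ w‖ ≤ (μ univ).toReal * ‖v - w‖ := by
    intro v w
    rw [conv_sub, mul_comm]
    exact norm_conv_le μ _
  have h2 : Continuous (fun v : C(K, ℂ) => conv μ v) := by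
    have : LipschitzWith (μ univ).toReal.toNNReal (fun v : C(K, ℂ) => conv μ v) := by
      apply LipschitzWith.of_dist_le_mul
      intro v w
      rw [dist_eq_norm, dist_eq_norm, Real.coe_toNNReal _ ENNReal.toReal_nonneg]
      exact h v w
    exact this.continuous
  simp_rw [lam_mul_conv]
  exact h2.comp (continuous_tr u)

theorem conv_ne_zero [μ.IsOpenPosMeasure] {k0 : K} {V : Set K}
    (hVk : ∀ x ∈ V, ∀ y ∈ V, ∀ z ∈ V, k0 ≠ y * x⁻¹ * z⁻¹)
    {v : C(K, ℝ)} (hv0 : ∀ x, 0 ≤ v x) (hv1 : v 1 = 1) (hvV : ∀ x, x ∉ V → v x = 0)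
    {u : C(K, ℂ)} (hu : ∀ x, u x = (v x : ℂ)) :
    conv μ u - lam μ k0 * conv μ u ≠ 0 := by
  rw [lam_mul_conv, conv_sub]
  intro h0
  let F : Lp ℂ 2 μ := ContinuousMap.toLp 2 μ ℂ u
  have hh : ∀ k, inner ℂ F (lam μ k F) = ((∫ x, v (k * x) * v x ∂μ : ℝ) : ℂ) := by
    intro k
    let uk : C(K, ℂ) := ⟨fun x => u (k * x), by fun_prop⟩
    have h1 : lam μ k F = ContinuousMap.toLp 2 μ ℂ uk := by
      rfl
    rw [h1, ContinuousMap.inner_toLp, ← integral_complex_ofReal]
    congr 1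
    ext1 x
    change u (k * x) * (starRingEnd ℂ) (u x) = _
    rw [hu, hu]
    simp
  have hcont : Continuous fun k => inner ℂ F (lam μ k F) := by
    exact Continuous.inner continuous_const (continuous_lam_apply μ F)
  set c : K → ℝ := fun k => ∫ x, v (k * x) * v x ∂μ with hc
  have hcc : Continuous c := by
    have : c = fun k => (inner ℂ F (lam μ k F)).re := by
      ext k
      rw [hh]
      simp [hc]
    rw [this]
    exact Complex.continuous_re.comp hcont
  have hc0 : ∀ k, 0 ≤ c k := fun k => integral_nonneg fun x => mul_nonneg (hv0 _) (hv0 _)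
  have hc1 : 0 < c 1 := by
    have : c 1 = ∫ x, v x * v x ∂μ := by simp [hc]
    rw [this]
    have hcv : Continuous fun x => v x * v x := by fun_prop
    apply hcv.integral_pos_of_hasCompactSupport_nonneg_nonzero
      (HasCompactSupport.of_compactSpace _) (fun x => mul_nonneg (hv0 _) (hv0 _)) (x := 1)
    simp [hv1]
  have hczero : ∀ k, v (k0⁻¹ * k) * c k = 0 := by
    intro k
    by_cases hk : v (k0⁻¹ * k) = 0
    · rw [hk, zero_mul]
    · have hkV : k0⁻¹ * k ∈ V := by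
        by_contra hcon
        exact hk (hvV _ hcon)
      have : c k = 0 := by
        rw [hc]
        simp only
        have hz : ∀ x, v (k * x) * v x = 0 := by
          intro x
          by_contra hne
          have hx : x ∈ V := by
            by_contra hcon
            exact hne (by rw [hvV _ hcon, mul_zero])
          have hkx : k * x ∈ V := by
            by_contra hcon
            exact hne (by rw [hvV _ hcon, zero_mul])
          apply hVk x hx (k * x) hkx (k0⁻¹ * k) hkV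
          group
        simp [hz]
      rw [this, mul_zero]
  have hpos : 0 < ∫ k, v k * c k ∂μ := by
    have hcv : Continuous fun k => v k * c k := by fun_prop
    apply hcv.integral_pos_of_hasCompactSupport_nonneg_nonzero
      (HasCompactSupport.of_compactSpace _) (fun x => mul_nonneg (hv0 _) (hc0 _)) (x := 1)
    simp [hv1, hc1.ne']
  have hzero : inner ℂ F (conv μ (u - tr u k0) F) = 0 := by
    rw [h0]
    simp
  rw [conv_apply, ← integral_inner (integrable_aux μ _ F)] at hzero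
  have h2 : (∫ k, inner ℂ F ((u - tr u k0) k • lam μ k F) ∂μ) = ((∫ k, v k * c k ∂μ : ℝ) : ℂ) := by
    rw [← integral_complex_ofReal]
    congr 1
    ext1 k
    rw [inner_smul_right, hh]
    change (u k - u (k0⁻¹ * k)) * (c k : ℂ) = _
    rw [hu, hu, sub_mul]
    have := hczero k
    have h3 : ((v (k0⁻¹ * k) : ℝ) : ℂ) * (c k : ℂ) = 0 := by
      rw [← Complex.ofReal_mul, this]; simp
    rw [h3, sub_zero]
    simp
  rw [h2] at hzero
  exact hpos.ne' (by exact_mod_cast hzero)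

end reg


/-- characters separate points of a compact Hausdorff abelian group -/
theorem exists_char_ne_one {K : Type*} [CommGroup K] [TopologicalSpace K] [IsTopologicalGroup K]
    [CompactSpace K] [T2Space K] {k0 : K} (hk0 : k0 ≠ 1) :
    ∃ χ : K →* Circle, Continuous χ ∧ χ k0 ≠ 1 := by
  let _ : MeasurableSpace K := borel K
  have : BorelSpace K := ⟨rfl⟩
  let μ : Measure K := Measure.haar
  -- a good neighborhood of 1
  obtain ⟨V, hVo, hV1, hVk⟩ : ∃ V : Set K, IsOpen V ∧ (1 : K) ∈ V ∧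
      ∀ x ∈ V, ∀ y ∈ V, ∀ z ∈ V, k0 ≠ y * x⁻¹ * z⁻¹ := by
    have hcont : Continuous fun p : K × K × K => p.2.1 * p.1⁻¹ * p.2.2⁻¹ := by fun_prop
    have hopen : IsOpen {p : K × K × K | p.2.1 * p.1⁻¹ * p.2.2⁻¹ ≠ k0} :=
      isOpen_ne.preimage hcont
    have hmem : ((1 : K), (1 : K), (1 : K)) ∈ {p : K × K × K | p.2.1 * p.1⁻¹ * p.2.2⁻¹ ≠ k0} := by
      simpa using hk0.symm
    have hnhds := hopen.mem_nhds hmem
    rw [nhds_prod_eq, nhds_prod_eq, Filter.mem_prod_iff] at hnhds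
    obtain ⟨A, hA, B', hB', hAB⟩ := hnhds
    rw [Filter.mem_prod_iff] at hB'
    obtain ⟨B, hB, C, hC, hBC⟩ := hB'
    obtain ⟨V, hVsub, hVo, hV1⟩ := mem_nhds_iff.mp (inter_mem (inter_mem hA hB) hC)
    refine ⟨V, hVo, hV1, ?_⟩
    intro x hx y hy z hz
    have : (x, y, z) ∈ {p : K × K × K | p.2.1 * p.1⁻¹ * p.2.2⁻¹ ≠ k0} :=
      hAB ⟨(hVsub hx).1.1, hBC ⟨(hVsub hy).1.2, (hVsub hz).2⟩⟩
    exact fun h => this h.symm
  obtain ⟨v, hv0, hv1, hv01⟩ := exists_continuous_zero_one_of_isClosed (s := Vᶜ) (t := {(1 : K)})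
    hVo.isClosed_compl isClosed_singleton (by
      rw [Set.disjoint_left]
      rintro x hx rfl
      exact hx hV1)
  let u : C(K, ℂ) := ⟨fun x => (v x : ℂ), by fun_prop⟩
  have hne := conv_ne_zero μ (k0 := k0) (V := V) hVk (fun x => (hv01 x).1) (hv1 rfl)
    (fun x hx => hv0 hx) (u := u) (fun x => rfl)
  set T := conv μ u with hT
  let S : Set (Lp ℂ 2 μ →L[ℂ] Lp ℂ 2 μ) := insert T (range (lam μ))
  have hTl : ∀ k, T * lam μ k = lam μ k * T := fun k =>
    (conv_comm μ u (lam μ k) (fun l => by rw [← lam_mul, ← lam_mul, mul_comm])).symm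
  have hll : ∀ k l, lam μ k * lam μ l = lam μ l * lam μ k := fun k l => by
    rw [← lam_mul, ← lam_mul, mul_comm]
  have hsTl : ∀ k, star T * lam μ k = lam μ k * star T := by
    intro k
    have h := hTl k⁻¹
    have h2 := congrArg star h
    rw [star_mul, star_mul, star_lam, inv_inv] at h2
    exact h2.symm
  have hTT : T * star T = star T * T := (conv_comm μ u (star T) hsTl).symm
  have hcomm : ∀ x ∈ S, ∀ y ∈ S, x * y = y * x := by
    rintro x (rfl | ⟨k, rfl⟩) y (rfl | ⟨l, rfl⟩)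
    · rfl
    · exact hTl l
    · exact (hTl k).symm
    · exact hll k l
  have hstar : ∀ x ∈ S, ∀ y ∈ S, x * star y = star y * x := by
    rintro x (rfl | ⟨k, rfl⟩) y (rfl | ⟨l, rfl⟩)
    · exact hTT
    · rw [star_lam]; exact hTl _
    · exact (hsTl k).symm
    · rw [star_lam]; exact hll k _
  have hTS : T ∈ StarAlgebra.adjoin ℂ S := StarAlgebra.subset_adjoin ℂ S (mem_insert _ _)
  have hlS : ∀ k, lam μ k ∈ StarAlgebra.adjoin ℂ S := fun k =>
    StarAlgebra.subset_adjoin ℂ S (mem_insert_of_mem _ ⟨k, rfl⟩)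
  have hwS : T - lam μ k0 * T ∈ StarAlgebra.adjoin ℂ S := sub_mem hTS (mul_mem (hlS k0) hTS)
  obtain ⟨φ, hφn, hφ⟩ := exists_character hcomm hstar hwS hne
  let ψ : K → ℂ := fun k => φ ⟨lam μ k, hlS k⟩
  have hψmul : ∀ k l, ψ (k * l) = ψ k * ψ l := by
    intro k l
    simp only [ψ]
    rw [← map_mul]
    congr 1
    ext1
    exact lam_mul μ k l
  have hψ1 : ψ 1 = 1 := by
    simp only [ψ]
    rw [← map_one φ]
    congr 1
    ext1
    exact lam_one μ
  have hψn : ∀ k, ‖ψ k‖ ≤ 1 := fun k => (hφn _).trans (norm_lam_le μ k)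
  have hψn1 : ∀ k, ‖ψ k‖ = 1 := by
    intro k
    apply le_antisymm (hψn k)
    have h : ‖ψ k‖ * ‖ψ k⁻¹‖ = 1 := by
      rw [← norm_mul, ← hψmul, mul_inv_cancel, hψ1, norm_one]
    nlinarith [hψn k, hψn k⁻¹, norm_nonneg (ψ k), norm_nonneg (ψ k⁻¹)]
  have hφT : φ ⟨T - lam μ k0 * T, hwS⟩ = (1 - ψ k0) * φ ⟨T, hTS⟩ := by
    have : (⟨T - lam μ k0 * T, hwS⟩ : StarAlgebra.adjoin ℂ S) =
        ⟨T, hTS⟩ - ⟨lam μ k0, hlS k0⟩ * ⟨T, hTS⟩ := rfl
    rw [this, map_sub, map_mul]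
    ring
  rw [hφT] at hφ
  have hTne : φ ⟨T, hTS⟩ ≠ 0 := right_ne_zero_of_mul hφ
  have hk0ne : ψ k0 ≠ 1 := by
    intro h
    apply left_ne_zero_of_mul hφ
    rw [h, sub_self]
  have hψc : Continuous ψ := by
    have hLip : LipschitzWith 1 φ := by
      apply LipschitzWith.of_dist_le_mul
      intro x y
      rw [dist_eq_norm, ← map_sub]
      simpa [dist_eq_norm] using hφn (x - y)
    have h1 : Continuous fun k => (⟨lam μ k * T, mul_mem (hlS k) hTS⟩ : StarAlgebra.adjoin ℂ S) :=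
      Continuous.subtype_mk (continuous_lam_mul_conv μ u) _
    have h2 : ψ = fun k => φ ⟨lam μ k * T, mul_mem (hlS k) hTS⟩ / φ ⟨T, hTS⟩ := by
      ext k
      rw [eq_div_iff hTne]
      have : (⟨lam μ k * T, mul_mem (hlS k) hTS⟩ : StarAlgebra.adjoin ℂ S) =
        ⟨lam μ k, hlS k⟩ * ⟨T, hTS⟩ := rfl
      rw [this, map_mul]
    rw [h2]
    exact (hLip.continuous.comp h1).div_const _
  let χ : K →* Circle :=
    { toFun := fun k => ⟨ψ k, mem_sphere_zero_iff_norm.mpr (hψn1 k)⟩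
      map_one' := by
        ext
        exact hψ1
      map_mul' := fun k l => by
        ext
        exact hψmul k l }
  refine ⟨χ, ?_, ?_⟩
  · exact Continuous.subtype_mk hψc _
  · intro h
    apply hk0ne
    have := congrArg (fun z : Circle => (z : ℂ)) h
    exact this

/-! ## The sweeping lemma -/

/-- limit set of a family of sets along a filter -/
def limset {K : Type*} [TopologicalSpace K] (U : Filter ℕ) (S : ℕ → Set K) : Set K :=
  {q | ∀ W ∈ 𝓝 q, ∀ᶠ n in U, ∃ x ∈ S n, x ∈ W}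

theorem isClosed_limset {K : Type*} [TopologicalSpace K] (U : Filter ℕ) (S : ℕ → Set K) :
    IsClosed (limset U S) := by
  rw [← closure_subset_iff_isClosed]
  intro q hq W hW
  obtain ⟨W', hW'W, hW'o, hqW'⟩ := mem_nhds_iff.mp hW
  obtain ⟨q', hq'W', hq'⟩ := mem_closure_iff.mp hq W' hW'o hqW'
  exact hq' W (mem_of_superset (hW'o.mem_nhds hq'W') hW'W)

theorem exists_mem_limset {K : Type*} [TopologicalSpace K] [CompactSpace K]
    (U : Ultrafilter ℕ) (S : ℕ → Set K) {C : Set K} (hC : IsClosed C)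
    (h : ∀ᶠ n in (U : Filter ℕ), ∃ x ∈ S n, x ∈ C) : ∃ q ∈ limset U S, q ∈ C := by
  classical
  have hne : Nonempty K := by
    obtain ⟨n, x, _, _⟩ := h.exists
    exact ⟨x⟩
  have hch : ∃ x : ℕ → K, ∀ n, (∃ y ∈ S n, y ∈ C) → (x n ∈ S n ∧ x n ∈ C) := by
    choose! x hx using fun n (hn : ∃ y ∈ S n, y ∈ C) => hn
    exact ⟨x, hx⟩
  obtain ⟨x, hx⟩ := hch
  obtain ⟨q, _, hq⟩ := (isCompact_univ (X := K)).ultrafilter_le_nhds (U.map x) (by simp)
  refine ⟨q, ?_, ?_⟩
  · intro W hW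
    have h1 : ∀ᶠ n in (U : Filter ℕ), x n ∈ W := hq hW
    filter_upwards [h1, h] with n hn1 hn2
    exact ⟨x n, (hx n hn2).1, hn1⟩
  · have h1 : ∀ᶠ n in (U : Filter ℕ), x n ∈ C := h.mono fun n hn => (hx n hn).2
    have h2 : Tendsto x U (𝓝 q) := hq
    exact hC.mem_of_tendsto h2 h1

theorem sweep {K : Type*} [CommGroup K] [TopologicalSpace K] [IsTopologicalGroup K]
    [CompactSpace K] [T2Space K]
    {H : Type*} [Group H] [TopologicalSpace H] [IsTopologicalGroup H] (θ : H →* K)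
    (hchar : ∀ χ : K →* Circle, Continuous χ → (∃ k, χ k ≠ 1) → ∀ B ∈ 𝓝 (1 : H),
      ∀ᶠ n : ℕ in atTop, ∃ h ∈ B, ((χ (θ h) : ℂ)) ^ n = -1)
    {B : Set H} (hB : B ∈ 𝓝 1) {W : Set K} (hW : W ∈ 𝓝 (1 : K)) :
    ∀ᶠ n : ℕ in atTop, ∀ k : K, ∃ h ∈ B, (θ h) ^ n * k⁻¹ ∈ W := by
  classical
  by_contra hcon
  rw [Filter.not_eventually] at hcon
  rw [Filter.frequently_iff_neBot] at hcon
  let U : Ultrafilter ℕ := Ultrafilter.of (atTop ⊓ 𝓟 {n : ℕ | ¬ ∀ k : K, ∃ h ∈ B, (θ h) ^ n * k⁻¹ ∈ W})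
  have hUle : (U : Filter ℕ) ≤ atTop ⊓ 𝓟 {n : ℕ | ¬ ∀ k : K, ∃ h ∈ B, (θ h) ^ n * k⁻¹ ∈ W} :=
    Ultrafilter.of_le _
  have hUtop : (U : Filter ℕ) ≤ atTop := hUle.trans inf_le_left
  have hUbad : ∀ᶠ n : ℕ in (U : Filter ℕ), ∃ k : K, ∀ h ∈ B, (θ h) ^ n * k⁻¹ ∉ W := by
    have h1 : {n : ℕ | ¬ ∀ k : K, ∃ h ∈ B, (θ h) ^ n * k⁻¹ ∈ W} ∈ (U : Filter ℕ) :=
      le_principal_iff.mp (hUle.trans inf_le_right)
    filter_upwards [h1] with n hn
    have hn' : ¬ ∀ k : K, ∃ h ∈ B, (θ h) ^ n * k⁻¹ ∈ W := hn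
    push Not at hn'
    exact hn'
  -- the family of sets
  let Sf : Set H → ℕ → Set K := fun A n => {x | ∃ h ∈ A, (θ h) ^ n = x}
  let P : Subgroup K :=
    { carrier := {q | ∀ A ∈ 𝓝 (1 : H), q ∈ limset (U : Filter ℕ) (Sf A)}
      one_mem' := by
        intro A hA V hV
        refine Eventually.of_forall fun n => ⟨1, ⟨1, mem_of_mem_nhds hA, by simp⟩, mem_of_mem_nhds hV⟩
      mul_mem' := by
        intro p q hp hq A hA V hV
        obtain ⟨A', hA', hA'A⟩ := exists_nhds_one_split hA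
        have hV' : {x : K × K | x.1 * x.2 ∈ V} ∈ 𝓝 (p, q) :=
          (continuous_mul (M := K)).continuousAt.preimage_mem_nhds hV
        rw [nhds_prod_eq, Filter.mem_prod_iff] at hV'
        obtain ⟨V1, hV1, V2, hV2, hV12⟩ := hV'
        filter_upwards [hp A' hA' V1 hV1, hq A' hA' V2 hV2] with n hn1 hn2
        obtain ⟨_, ⟨h1, hh1, rfl⟩, hx1⟩ := hn1
        obtain ⟨_, ⟨h2, hh2, rfl⟩, hx2⟩ := hn2
        refine ⟨_, ⟨h1 * h2, hA'A h1 hh1 h2 hh2, rfl⟩, ?_⟩
        rw [map_mul, mul_pow]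
        have hmem : ((θ h1 ^ n, θ h2 ^ n) : K × K) ∈ V1 ×ˢ V2 := ⟨hx1, hx2⟩
        exact hV12 hmem
      inv_mem' := by
        intro p hp A hA V hV
        have hA' : (fun x : H => x⁻¹) ⁻¹' A ∈ 𝓝 (1 : H) := by
          apply continuous_inv.continuousAt.preimage_mem_nhds
          simpa using hA
        have hV' : (fun x : K => x⁻¹) ⁻¹' V ∈ 𝓝 p :=
          continuous_inv.continuousAt.preimage_mem_nhds hV
        filter_upwards [hp _ hA' _ hV'] with n hn
        obtain ⟨_, ⟨h1, hh1, rfl⟩, hx1⟩ := hn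
        refine ⟨_, ⟨h1⁻¹, hh1, rfl⟩, ?_⟩
        rw [map_inv, inv_pow]
        exact hx1 }
  have hPclosed : IsClosed (P : Set K) := by
    have : (P : Set K) = ⋂ A ∈ 𝓝 (1 : H), limset (U : Filter ℕ) (Sf A) := by
      ext q
      simp [P]
    rw [this]
    exact isClosed_biInter fun A _ => isClosed_limset _ _
  have hPtop : P = ⊤ := by
    by_contra hne
    obtain ⟨k, hk⟩ : ∃ k, k ∉ P := by
      by_contra hall
      push Not at hall
      exact hne (eq_top_iff.mpr fun k _ => hall k)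
    have hPc : IsClosed (P : Set K) := hPclosed
    have hk' : (QuotientGroup.mk k : K ⧸ P) ≠ 1 := by
      intro h
      exact hk ((QuotientGroup.eq_one_iff k).mp h)
    obtain ⟨χ', hχ'c, hχ'⟩ := exists_char_ne_one hk'
    let χ : K →* Circle := χ'.comp (QuotientGroup.mk' P)
    have hχc : Continuous χ := hχ'c.comp QuotientGroup.continuous_mk
    have hχP : ∀ q ∈ P, χ q = 1 := by
      intro q hq
      have : (QuotientGroup.mk' P) q = 1 := (QuotientGroup.eq_one_iff q).mpr hq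
      change χ' ((QuotientGroup.mk' P) q) = 1
      rw [this, map_one]
    -- find a point of P with `χ = -1`
    have hC : IsClosed {q : K | ((χ q : ℂ)) = -1} :=
      isClosed_eq (by fun_prop) continuous_const
    let L : {A : Set H // A ∈ 𝓝 (1 : H)} → Set K :=
      fun A => limset (U : Filter ℕ) (Sf A.1) ∩ {q : K | ((χ q : ℂ)) = -1}
    have hLne : ∀ A, (L A).Nonempty := by
      intro A
      have h1 : ∀ᶠ n in (U : Filter ℕ), ∃ x ∈ Sf A.1 n, x ∈ {q : K | ((χ q : ℂ)) = -1} := by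
        filter_upwards [hUtop (hchar χ hχc ⟨k, hχ'⟩ A.1 A.2)] with n hn
        obtain ⟨h, hh, hn⟩ := hn
        refine ⟨(θ h) ^ n, ⟨h, hh, rfl⟩, ?_⟩
        change ((χ (θ h ^ n) : ℂ)) = -1
        rw [map_pow]
        simpa using hn
      obtain ⟨q, hq1, hq2⟩ := exists_mem_limset U _ hC h1
      exact ⟨q, hq1, hq2⟩
    have hLc : ∀ A, IsClosed (L A) := fun A => (isClosed_limset _ _).inter hC
    have hdir : Directed (· ⊇ ·) L := by
      intro A A'
      refine ⟨⟨A.1 ∩ A'.1, inter_mem A.2 A'.2⟩, ?_, ?_⟩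
      · rintro q ⟨hq1, hq2⟩
        refine ⟨fun V hV => ?_, hq2⟩
        filter_upwards [hq1 V hV] with n hn
        obtain ⟨_, ⟨h, hh, rfl⟩, hx⟩ := hn
        exact ⟨_, ⟨h, hh.1, rfl⟩, hx⟩
      · rintro q ⟨hq1, hq2⟩
        refine ⟨fun V hV => ?_, hq2⟩
        filter_upwards [hq1 V hV] with n hn
        obtain ⟨_, ⟨h, hh, rfl⟩, hx⟩ := hn
        exact ⟨_, ⟨h, hh.2, rfl⟩, hx⟩
    have hne2 : Nonempty {A : Set H // A ∈ 𝓝 (1 : H)} := ⟨⟨univ, univ_mem⟩⟩
    obtain ⟨q, hq⟩ := IsCompact.nonempty_iInter_of_directed_nonempty_isCompact_isClosed L hdir hLne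
      (fun A => (hLc A).isCompact) hLc
    rw [mem_iInter] at hq
    have hqP : q ∈ P := fun A hA => (hq ⟨A, hA⟩).1
    have h1 : ((χ q : ℂ)) = -1 := (hq ⟨univ, univ_mem⟩).2
    rw [hχP q hqP] at h1
    norm_num at h1
  -- choose the bad points
  obtain ⟨κ, hκ⟩ : ∃ κ : ℕ → K, ∀ n, (∃ k : K, ∀ h ∈ B, (θ h) ^ n * k⁻¹ ∉ W) →
      ∀ h ∈ B, (θ h) ^ n * (κ n)⁻¹ ∉ W := by
    have : Nonempty K := ⟨1⟩
    choose! x hx using fun n (hn : ∃ k : K, ∀ h ∈ B, (θ h) ^ n * k⁻¹ ∉ W) => hn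
    exact ⟨x, hx⟩
  obtain ⟨q, _, hq⟩ := (isCompact_univ (X := K)).ultrafilter_le_nhds (U.map κ) (by simp)
  obtain ⟨V, hV, hVW⟩ := exists_nhds_split_inv hW
  have hV' : (fun x : K => x * q⁻¹) ⁻¹' V ∈ 𝓝 q := by
    apply (by fun_prop : Continuous fun x : K => x * q⁻¹).continuousAt.preimage_mem_nhds
    simpa using hV
  have h1 : ∀ᶠ n in (U : Filter ℕ), κ n * q⁻¹ ∈ V := hq hV'
  have hqP : q ∈ P := by rw [hPtop]; trivial
  have h2 := hqP B hB _ hV'
  obtain ⟨n, hn1, hn2, hn3⟩ := (h1.and (h2.and hUbad)).exists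
  obtain ⟨_, ⟨h, hh, rfl⟩, hx⟩ := hn2
  apply hκ n hn3 h hh
  have h3 := hVW _ hx _ hn1
  have h4 : θ h ^ n * q⁻¹ / (κ n * q⁻¹) = θ h ^ n * (κ n)⁻¹ := by
    rw [div_eq_mul_inv, mul_inv, inv_inv, mul_assoc]
    congr 1
    rw [mul_comm (κ n)⁻¹ q, inv_mul_cancel_left]
  rw [← h4]
  exact h3

/-! ## Characters of the lower central series -/

/-- lower central series of `G` -/
abbrev LCS (G : Type*) [Group G] (r : ℕ) : Subgroup G := (⊤ : Subgroup G).lowerCentralSeries r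

/-- `f` is multiplicative on `LCS G r` and trivial on `LCS G (r+1)` -/
structure IsChar {G : Type*} [Group G] (r : ℕ) (f : G → Circle) : Prop where
  mul : ∀ x ∈ LCS G r, ∀ y ∈ LCS G r, f (x * y) = f x * f y
  triv : ∀ x ∈ LCS G (r + 1), f x = 1

section algebra

variable {G : Type*} [Group G]

theorem LCS_succ (r : ℕ) : LCS G (r + 1) = ⁅LCS G r, (⊤ : Subgroup G)⁆ := rfl

theorem comm_mem {r : ℕ} {x : G} (hx : x ∈ LCS G r) (g : G) : ⁅x, g⁆ ∈ LCS G (r + 1) :=
  Subgroup.commutator_mem_commutator hx (Subgroup.mem_top g)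

theorem comm_mem' {r : ℕ} {x : G} (hx : x ∈ LCS G r) (g : G) : ⁅g, x⁆ ∈ LCS G (r + 1) := by
  rw [← inv_mem_iff, commutatorElement_inv]
  exact comm_mem hx g

theorem LCS_le {r s : ℕ} (h : r ≤ s) : LCS G s ≤ LCS G r :=
  Subgroup.lowerCentralSeries_antitone _ h

instance LCS_normal (r : ℕ) : (LCS G r).Normal := inferInstance

theorem comm_mul_left (x y g : G) : ⁅x * y, g⁆ = ⁅x, ⁅y, g⁆⁆ * ⁅y, g⁆ * ⁅x, g⁆ := by
  simp only [commutatorElement_def]; group

theorem comm_mul_right (x g h : G) : ⁅x, g * h⁆ = ⁅x, g⁆ * (⁅g, ⁅x, h⁆⁆ * ⁅x, h⁆) := by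
  simp only [commutatorElement_def]; group

namespace IsChar

theorem one {r : ℕ} {f : G → Circle} (hf : IsChar r f) : f 1 = 1 := hf.triv 1 (one_mem _)

theorem comm_fst {r : ℕ} {f : G → Circle} (hf : IsChar (r + 1) f) (g : G) :
    IsChar r (fun x : G => f ⁅x, g⁆) := by
  refine ⟨?_, ?_⟩
  · intro x hx y hy
    have h1 : ⁅y, g⁆ ∈ LCS G (r + 1) := comm_mem hy g
    have h2 : ⁅x, g⁆ ∈ LCS G (r + 1) := comm_mem hx g
    have h3 : ⁅x, ⁅y, g⁆⁆ ∈ LCS G (r + 2) := comm_mem' h1 x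
    have h3' : ⁅x, ⁅y, g⁆⁆ ∈ LCS G (r + 1) := LCS_le (Nat.le_succ _) h3
    rw [comm_mul_left, hf.mul _ (mul_mem h3' h1) _ h2, hf.mul _ h3' _ h1, hf.triv _ h3, one_mul,
      mul_comm]
  · intro x hx
    exact hf.triv _ (comm_mem hx g)

theorem comm_snd {r : ℕ} {f : G → Circle} (hf : IsChar (r + 1) f) {x : G} (hx : x ∈ LCS G r)
    (g h : G) : f ⁅x, g * h⁆ = f ⁅x, g⁆ * f ⁅x, h⁆ := by
  have h1 : ⁅x, g⁆ ∈ LCS G (r + 1) := comm_mem hx g
  have h2 : ⁅x, h⁆ ∈ LCS G (r + 1) := comm_mem hx h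
  have h3 : ⁅g, ⁅x, h⁆⁆ ∈ LCS G (r + 2) := comm_mem' h2 g
  have h3' : ⁅g, ⁅x, h⁆⁆ ∈ LCS G (r + 1) := LCS_le (Nat.le_succ _) h3
  rw [comm_mul_right, hf.mul _ h1 _ (mul_mem h3' h2), hf.mul _ h3' _ h2, hf.triv _ h3, one_mul]

theorem inv {r : ℕ} {f : G → Circle} (hf : IsChar r f) {x : G} (hx : x ∈ LCS G r) :
    f x⁻¹ = (f x)⁻¹ := by
  have := hf.mul x hx x⁻¹ (inv_mem hx)
  rw [mul_inv_cancel, hf.one] at this
  exact eq_inv_of_mul_eq_one_right this.symm

/-- a character which is trivial on all commutators is trivial -/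
theorem eq_one_of_comm {r : ℕ} {f : G → Circle} (hf : IsChar (r + 1) f)
    (h : ∀ x ∈ LCS G r, ∀ g, f ⁅x, g⁆ = 1) : ∀ x ∈ LCS G (r + 1), f x = 1 := by
  let K : Subgroup G :=
    { carrier := {y | y ∈ LCS G (r + 1) ∧ f y = 1}
      mul_mem' := by
        rintro x y ⟨hx, hx1⟩ ⟨hy, hy1⟩
        exact ⟨mul_mem hx hy, by rw [hf.mul x hx y hy, hx1, hy1, one_mul]⟩
      one_mem' := ⟨one_mem _, hf.one⟩
      inv_mem' := by
        rintro x ⟨hx, hx1⟩
        exact ⟨inv_mem hx, by rw [hf.inv hx, hx1, inv_one]⟩ }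
  have hK : LCS G (r + 1) ≤ K := by
    rw [LCS_succ, Subgroup.commutator_le]
    intro x hx g _
    exact ⟨comm_mem hx g, h x hx g⟩
  intro x hx
  exact (hK hx).2

end IsChar

end algebra

section circle

theorem circle_pow_eq_neg_one {z : Circle} {n : ℕ} (hn : n ≠ 0)
    (hz : (z : ℂ).re = Real.cos (Real.pi / n)) : ((z : ℂ)) ^ n = -1 := by
  have hnpos : (0 : ℝ) < n := by positivity
  have hpi := Real.pi_pos
  have h1 : Real.cos |Complex.arg z| = Real.cos (Real.pi / n) := by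
    rw [Real.cos_abs, ← hz, Complex.cos_arg (by simp)]
    simp
  have h2 : |Complex.arg z| = Real.pi / n := by
    refine Real.injOn_cos ⟨abs_nonneg _, Complex.abs_arg_le_pi _⟩ ⟨by positivity, ?_⟩ h1
    apply div_le_self hpi.le
    exact_mod_cast Nat.one_le_iff_ne_zero.mpr hn
  have h3 : (z : ℂ) = Complex.exp (Complex.arg z * Complex.I) := by
    have := Complex.norm_mul_exp_arg_mul_I (z : ℂ)
    simpa using this.symm
  rw [h3, ← Complex.exp_nat_mul]
  rcases abs_eq (by positivity) |>.mp h2 with h | h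
  · have : (n : ℂ) * (Complex.arg z * Complex.I) = Real.pi * Complex.I := by
      rw [h]; push_cast; field_simp
    rw [this, Complex.exp_pi_mul_I]
  · have : (n : ℂ) * (Complex.arg z * Complex.I) = -(Real.pi * Complex.I) := by
      rw [h]; push_cast; field_simp
    rw [this, Complex.exp_neg, Complex.exp_pi_mul_I]
    norm_num

end circle

section top

variable {G : Type*} [Group G] [TopologicalSpace G]

theorem open_kernel [LocallyConnectedSpace G] {f : G → Circle} (hfc : Continuous f)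
    (hf1 : f 1 = 1) {B : Set G} (hB : B ∈ 𝓝 (1 : G))
    (hfreq : ∃ᶠ n : ℕ in atTop, ∀ h ∈ B, ((f h : ℂ)) ^ n ≠ -1) :
    ∀ᶠ h in 𝓝 (1 : G), f h = 1 := by
  obtain ⟨U, hUB, hUo, h1U, hUc⟩ := locallyConnectedSpace_iff_subsets_isOpen_isConnected.mp
    inferInstance (1 : G) B hB
  refine Filter.mem_of_superset (hUo.mem_nhds h1U) ?_
  intro h hh
  by_contra hne
  have hne' : f h ≠ 1 := hne
  have hre : ((f h : ℂ)).re < 1 := by
    have hle : ((f h : ℂ)).re ≤ 1 := by
      have := Complex.re_le_norm (f h : ℂ)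
      simpa using this
    refine lt_of_le_of_ne hle ?_
    intro heq
    apply hne'
    have hn : Complex.normSq (f h : ℂ) = 1 := by
      simp
    rw [Complex.normSq_apply, heq] at hn
    have him : ((f h : ℂ)).im = 0 := by nlinarith
    ext
    apply Complex.ext
    · simpa using heq
    · simpa using him
  have hlim : Tendsto (fun n : ℕ => Real.cos (Real.pi / n)) atTop (𝓝 (Real.cos 0)) :=
    (Real.continuous_cos.tendsto 0).comp (tendsto_const_div_atTop_nhds_zero_nat Real.pi)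
  rw [Real.cos_zero] at hlim
  have hev : ∀ᶠ n : ℕ in atTop, ((f h : ℂ)).re < Real.cos (Real.pi / n) :=
    hlim.eventually (lt_mem_nhds hre)
  obtain ⟨n, hn1, hn2, hn3⟩ := (hfreq.and_eventually (hev.and (eventually_ne_atTop 0))).exists
  have hivt := hUc.isPreconnected.intermediate_value hh h1U
    (f := fun g => ((f g : ℂ)).re) (Continuous.continuousOn (by fun_prop))
  obtain ⟨g, hgU, hg⟩ := hivt ⟨hn2.le, (by simpa [hf1] using Real.cos_le_one _)⟩
  exact hn1 g (hUB hgU) (circle_pow_eq_neg_one hn3 hg)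

variable [IsTopologicalGroup G]

/-- a continuous character of `G` which is trivial near `1` and at `a` is trivial, if every open
subgroup containing `a` is everything -/
theorem char_trivial {a : G} (hE : ∀ H : Subgroup G, IsOpen (H : Set G) → a ∈ H → H = ⊤)
    {f : G → Circle} (hmul : ∀ x y, f (x * y) = f x * f y) (ha : f a = 1)
    (hev : ∀ᶠ h in 𝓝 (1 : G), f h = 1) (x : G) : f x = 1 := by
  have h1 : f 1 = 1 := by
    have := hmul 1 1
    rw [mul_one] at this
    exact (left_eq_mul.mp this)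
  let K : Subgroup G :=
    { carrier := {y | f y = 1}
      mul_mem' := by
        intro x y hx hy
        simp only [mem_ofPred_eq] at *
        rw [hmul, hx, hy, one_mul]
      one_mem' := h1
      inv_mem' := by
        intro x hx
        simp only [mem_ofPred_eq] at *
        have := hmul x x⁻¹
        rw [mul_inv_cancel, h1, hx, one_mul] at this
        exact this.symm }
  have hK : K = ⊤ := by
    apply hE
    · exact Subgroup.isOpen_of_mem_nhds K (g := 1) hev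
    · exact ha
  have : x ∈ K := by rw [hK]; trivial
  exact this

/-- Lemma E0 -/
theorem bichar_trivial {a : G} (hE : ∀ H : Subgroup G, IsOpen (H : Set G) → a ∈ H → H = ⊤)
    {Γ : Subgroup G} {Q : Set G} (hQ : IsCompact Q) (hQΓ : ∀ g, ∃ q ∈ Q, ∃ γ ∈ Γ, g = q * γ)
    {F : G → G → Circle} (hFc : Continuous (fun p : G × G => F p.1 p.2))
    (hmul1 : ∀ s s' g, F (s * s') g = F s g * F s' g)
    (hmul2 : ∀ s g g', F s (g * g') = F s g * F s g')
    (hΓ : ∀ s, ∀ γ ∈ Γ, F s γ = 1) (ha : ∀ g, F a g = 1) (s g : G) : F s g = 1 := by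
  have h1 : ∀ g, F 1 g = 1 := by
    intro g
    have := hmul1 1 1 g
    rw [mul_one] at this
    exact (left_eq_mul.mp this)
  have hev : ∀ᶠ s in 𝓝 (1 : G), ∀ g ∈ Q, F s g ∈ Circle.centeredArc (Real.pi / 2) := by
    apply hQ.eventually_forall_of_forall_eventually
    intro g hg
    have hopen : IsOpen {p : G × G | F p.1 p.2 ∈ Circle.centeredArc (Real.pi / 2)} :=
      (Circle.isOpen_centeredArc _).preimage hFc
    apply hopen.mem_nhds
    simp only [mem_ofPred_eq, h1]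
    rw [Circle.mem_centeredArc (by linarith [Real.pi_pos])]
    simp [Real.pi_pos]
  have hev2 : ∀ᶠ s in 𝓝 (1 : G), ∀ g, F s g = 1 := by
    filter_upwards [hev] with s hs g
    have hg : ∀ g, F s g ∈ Circle.centeredArc (Real.pi / 2) := by
      intro g
      obtain ⟨q, hq, γ, hγ, rfl⟩ := hQΓ g
      rw [hmul2, hΓ s γ hγ, mul_one]
      exact hs q hq
    apply Circle.eq_one_of_forall_pow_mem_centeredArc_pi_div_two
    intro n _
    have : ∀ n : ℕ, F s g ^ n = F s (g ^ n) := by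
      intro n
      induction n with
      | zero =>
        have := hmul2 s 1 1
        rw [mul_one] at this
        simp [left_eq_mul.mp this]
      | succ n ih =>
        rw [pow_succ, pow_succ, hmul2, ih]
    rw [this]
    exact hg _
  exact char_trivial hE (f := fun s => F s g) (fun x y => hmul1 x y g) (ha g)
    (hev2.mono fun s hs => hs g) s

/-- Lemma E2 -/
theorem small_trivial [LocallyConnectedSpace G] {a : G}
    (hE : ∀ H : Subgroup G, IsOpen (H : Set G) → a ∈ H → H = ⊤) :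
    ∀ (r : ℕ) (f : G → Circle), IsChar r f → ContinuousOn f (LCS G r) →
      (∃ B ∈ 𝓝 (1 : G), ∃ᶠ n : ℕ in atTop, ∀ h ∈ B, h ∈ LCS G r → ((f h : ℂ)) ^ n ≠ -1) →
      (r = 0 → f a = 1) → ∀ x ∈ LCS G r, f x = 1
  | 0, f, hf, hfc, ⟨B, hB, hfreq⟩, ha => by
    intro x _
    have hcont : Continuous f := by
      rw [← continuousOn_univ]
      exact hfc
    refine char_trivial hE (fun x y => hf.mul x (Subgroup.mem_top _) y (Subgroup.mem_top _))
      (ha rfl) ?_ x
    exact open_kernel hcont hf.one hB (hfreq.mono fun n hn h hh => hn h hh (Subgroup.mem_top _))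
  | (r + 1), f, hf, hfc, ⟨B, hB, hfreq⟩, _ => by
    have hcomm : Continuous (fun p : G × G => ⁅p.1, p.2⁆) := by
      simp only [commutatorElement_def]
      fun_prop
    -- first: `f ⁅x, a⁆ = 1`
    have step1 : ∀ x ∈ LCS G r, f ⁅x, a⁆ = 1 := by
      refine small_trivial hE r (fun x : G => f ⁅x, a⁆) (hf.comm_fst a) ?_ ?_ ?_
      · refine hfc.comp (Continuous.continuousOn ?_) ?_
        · exact hcomm.comp (by fun_prop : Continuous fun x : G => (x, a))
        · intro x hx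
          exact comm_mem hx a
      · refine ⟨(fun x : G => ⁅x, a⁆) ⁻¹' B, ?_, ?_⟩
        · have hc : Continuous fun x : G => ⁅x, a⁆ :=
            hcomm.comp (by fun_prop : Continuous fun x : G => (x, a))
          apply hc.continuousAt.preimage_mem_nhds
          simpa using hB
        · refine hfreq.mono fun n hn h hh hr => ?_
          exact hn _ hh (comm_mem hr a)
      · intro _
        simp [hf.one]
    refine hf.eq_one_of_comm ?_
    intro x hx g
    have hc : Continuous fun g : G => ⁅x, g⁆ :=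
      hcomm.comp (by fun_prop : Continuous fun g : G => (x, g))
    have hcont : Continuous (fun g : G => f ⁅x, g⁆) := by
      rw [← continuousOn_univ]
      exact hfc.comp hc.continuousOn (fun g _ => comm_mem hx g)
    refine char_trivial hE (f := fun g : G => f ⁅x, g⁆) (fun g h => hf.comm_snd hx g h)
      (step1 x hx) ?_ g
    refine open_kernel hcont (by simp [hf.one]) (B := (fun g : G => ⁅x, g⁆) ⁻¹' B) ?_ ?_
    · apply hc.continuousAt.preimage_mem_nhds
      simpa using hB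
    · exact hfreq.mono fun n hn h hh => hn _ hh (comm_mem hx h)

/-- Lemma E3 -/
theorem family_trivial {a : G}
    (hE : ∀ H : Subgroup G, IsOpen (H : Set G) → a ∈ H → H = ⊤)
    {Γ : Subgroup G} {Q : Set G} (hQ : IsCompact Q) (hQΓ : ∀ g, ∃ q ∈ Q, ∃ γ ∈ Γ, g = q * γ) :
    ∀ (r : ℕ) (F : G → G → Circle), (∀ s, IsChar r (F s)) →
      (∀ s s', ∀ x ∈ LCS G r, F (s * s') x = F s x * F s' x) →
      ContinuousOn (fun p : G × G => F p.1 p.2) (univ ×ˢ (LCS G r : Set G)) →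
      (∀ s, ∀ x ∈ Γ, x ∈ LCS G r → F s x = 1) →
      (∀ x ∈ LCS G r, F a x = 1) → ∀ s, ∀ x ∈ LCS G r, F s x = 1
  | 0, F, hF, hmul, hc, hΓ, ha => by
    intro s x _
    have hcont : Continuous (fun p : G × G => F p.1 p.2) := by
      rw [← continuousOn_univ]
      refine hc.mono ?_
      intro p _
      exact ⟨trivial, Subgroup.mem_top _⟩
    exact bichar_trivial hE hQ hQΓ hcont (fun s s' g => hmul s s' g (Subgroup.mem_top _))
      (fun s g g' => (hF s).mul g (Subgroup.mem_top _) g' (Subgroup.mem_top _))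
      (fun s γ hγ => hΓ s γ hγ (Subgroup.mem_top _)) (fun g => ha g (Subgroup.mem_top _)) s x
  | (r + 1), F, hF, hmul, hc, hΓ, ha => by
    have hcomm : Continuous (fun p : G × G => ⁅p.1, p.2⁆) := by
      simp only [commutatorElement_def]
      fun_prop
    have step1 : ∀ γ ∈ Γ, ∀ s, ∀ x ∈ LCS G r, F s ⁅x, γ⁆ = 1 := by
      intro γ hγ
      refine family_trivial hE hQ hQΓ r (fun s x => F s ⁅x, γ⁆) (fun s => (hF s).comm_fst γ)
        (fun s s' x hx => hmul s s' _ (comm_mem hx γ)) ?_ ?_ ?_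
      · refine hc.comp (f := fun p : G × G => (p.1, ⁅p.2, γ⁆)) (Continuous.continuousOn ?_) ?_
        · simp only [commutatorElement_def]
          fun_prop
        · rintro p ⟨_, hp⟩
          exact ⟨trivial, comm_mem hp γ⟩
      · intro s x hxΓ hx
        refine hΓ s _ ?_ (comm_mem hx γ)
        rw [commutatorElement_def]
        exact mul_mem (mul_mem (mul_mem hxΓ hγ) (inv_mem hxΓ)) (inv_mem hγ)
      · intro x hx
        exact ha _ (comm_mem hx γ)
    intro s
    refine (hF s).eq_one_of_comm ?_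
    intro x hx g
    refine bichar_trivial hE hQ hQΓ (F := fun s g => F s ⁅x, g⁆) ?_
      (fun s s' g => hmul s s' _ (comm_mem hx g)) (fun s g g' => (hF s).comm_snd hx g g')
      (fun s γ hγ => step1 γ hγ s x hx) (fun g => ha _ (comm_mem hx g)) s g
    rw [← continuousOn_univ]
    refine hc.comp (f := fun p : G × G => (p.1, ⁅x, p.2⁆)) (Continuous.continuousOn ?_) ?_
    · simp only [commutatorElement_def]
      fun_prop
    · rintro p _
      exact ⟨trivial, comm_mem hx _⟩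

end top

/-! ## The tower of closed subgroups -/

section

variable {G : Type*} [Group G] [TopologicalSpace G] [IsTopologicalGroup G]

/-- the closed subgroups of the tower -/
def Del (Γ : Subgroup G) (j : ℕ) : Subgroup G := (LCS G j ⊔ Γ).topologicalClosure

variable (Γ : Subgroup G)

theorem isClosed_Del (j : ℕ) : IsClosed (Del Γ j : Set G) := Subgroup.isClosed_topologicalClosure _

theorem sup_le_Del (j : ℕ) : LCS G j ⊔ Γ ≤ Del Γ j := Subgroup.le_topologicalClosure _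

theorem LCS_le_Del (j : ℕ) : LCS G j ≤ Del Γ j := le_sup_left.trans (sup_le_Del Γ j)

theorem Gam_le_Del (j : ℕ) : Γ ≤ Del Γ j := le_sup_right.trans (sup_le_Del Γ j)

theorem Del_anti (j : ℕ) : Del Γ (j + 1) ≤ Del Γ j :=
  Subgroup.topologicalClosure_mono (sup_le_sup_right (LCS_le (Nat.le_succ j)) Γ)

/-- closure induction for `Del` -/
theorem Del_induction {j : ℕ} {S : Set G} (hS : IsClosed S) (h : ∀ x ∈ LCS G j ⊔ Γ, x ∈ S)
    {x : G} (hx : x ∈ Del Γ j) : x ∈ S := by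
  have h1 : x ∈ closure ((LCS G j ⊔ Γ : Subgroup G) : Set G) := hx
  exact closure_minimal (fun x hx => h x hx) hS h1

theorem conj_sup {j : ℕ} {d x : G} (hd : d ∈ LCS G j ⊔ Γ) (hx : x ∈ LCS G (j + 1) ⊔ Γ) :
    d * x * d⁻¹ ∈ LCS G (j + 1) ⊔ Γ := by
  have key : LCS G j ⊔ Γ ≤ Subgroup.normalizer ((LCS G (j + 1) ⊔ Γ : Subgroup G) : Set G) := by
    apply sup_le
    · intro c hc
      have h1 : ∀ c ∈ LCS G j, ∀ y ∈ LCS G (j + 1) ⊔ Γ, c * y * c⁻¹ ∈ LCS G (j + 1) ⊔ Γ := by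
        intro c hc y hy
        have h2 : ⁅c, y⁆ ∈ LCS G (j + 1) := comm_mem hc y
        have h3 : c * y * c⁻¹ = ⁅c, y⁆ * y := by simp [commutatorElement_def]
        rw [h3]
        exact mul_mem ((le_sup_left : LCS G (j + 1) ≤ _) h2) hy
      rw [Subgroup.mem_normalizer_iff]
      intro y
      refine ⟨fun hy => h1 c hc y hy, fun hy => ?_⟩
      have h4 := h1 c⁻¹ (inv_mem hc) _ hy
      have h5 : c⁻¹ * (c * y * c⁻¹) * c⁻¹⁻¹ = y := by group
      rwa [h5] at h4
    · exact le_sup_right.trans Subgroup.le_normalizer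
  exact ((Subgroup.mem_normalizer_iff.mp (key hd)) x).mp hx

theorem conj_Del {j : ℕ} {d x : G} (hd : d ∈ Del Γ j) (hx : x ∈ Del Γ (j + 1)) :
    d * x * d⁻¹ ∈ Del Γ (j + 1) := by
  have h1 : ∀ x ∈ LCS G (j + 1) ⊔ Γ, ∀ d ∈ Del Γ j, d * x * d⁻¹ ∈ Del Γ (j + 1) := by
    intro x hx d hd
    refine Del_induction Γ (S := {d | d * x * d⁻¹ ∈ Del Γ (j + 1)}) ?_ ?_ hd
    · exact (isClosed_Del Γ (j + 1)).preimage (by fun_prop : Continuous fun d : G => d * x * d⁻¹)
    · intro d hd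
      exact sup_le_Del Γ _ (conj_sup Γ hd hx)
  refine Del_induction Γ (S := {x | d * x * d⁻¹ ∈ Del Γ (j + 1)}) ?_ ?_ hx
  · exact (isClosed_Del Γ (j + 1)).preimage (by fun_prop : Continuous fun x : G => d * x * d⁻¹)
  · intro x hx
    exact h1 x hx d hd

theorem comm_sup {j : ℕ} {d e : G} (hd : d ∈ LCS G j ⊔ Γ) (he : e ∈ LCS G j ⊔ Γ) :
    ⁅d, e⁆ ∈ LCS G (j + 1) ⊔ Γ := by
  obtain ⟨c, hc, γ, hγ, rfl⟩ := Subgroup.mem_sup_of_normal_left.mp hd
  have hγN : γ ∈ LCS G (j + 1) ⊔ Γ := (le_sup_right : Γ ≤ _) hγ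
  have h1 : ⁅γ, e⁆ ∈ LCS G (j + 1) ⊔ Γ := by
    have h2 : ⁅γ, e⁆ = γ * (e * γ⁻¹ * e⁻¹) := by simp [commutatorElement_def, mul_assoc]
    rw [h2]
    exact mul_mem hγN (conj_sup Γ he (inv_mem hγN))
  have h3 : ⁅c * γ, e⁆ = (c * ⁅γ, e⁆ * c⁻¹) * ⁅c, e⁆ := by
    simp only [commutatorElement_def]; group
  rw [h3]
  exact mul_mem (conj_sup Γ ((le_sup_left : LCS G j ≤ _) hc) h1)
    ((le_sup_left : LCS G (j + 1) ≤ _) (comm_mem hc e))

theorem comm_Del {j : ℕ} {d e : G} (hd : d ∈ Del Γ j) (he : e ∈ Del Γ j) :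
    ⁅d, e⁆ ∈ Del Γ (j + 1) := by
  have hcomm : Continuous (fun p : G × G => ⁅p.1, p.2⁆) := by
    simp only [commutatorElement_def]
    fun_prop
  have h1 : ∀ d ∈ LCS G j ⊔ Γ, ∀ e ∈ Del Γ j, ⁅d, e⁆ ∈ Del Γ (j + 1) := by
    intro d hd e he
    refine Del_induction Γ (S := {e | ⁅d, e⁆ ∈ Del Γ (j + 1)}) ?_ ?_ he
    · exact (isClosed_Del Γ (j + 1)).preimage
        (hcomm.comp (by fun_prop : Continuous fun e : G => (d, e)))
    · intro e he
      exact sup_le_Del Γ _ (comm_sup Γ hd he)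
  refine Del_induction Γ (S := {d | ⁅d, e⁆ ∈ Del Γ (j + 1)}) ?_ ?_ hd
  · exact (isClosed_Del Γ (j + 1)).preimage
      (hcomm.comp (by fun_prop : Continuous fun d : G => (d, e)))
  · intro d hd
    exact h1 d hd e he

/-- the key lemma: a character of `Del Γ (j+1)` trivial on `Del Γ (j+2)` which stays away from
`-1` under powers on commutators with `a` is trivial -/
theorem char_Del_trivial [LocallyConnectedSpace G] {a : G}
    (hE : ∀ H : Subgroup G, IsOpen (H : Set G) → a ∈ H → H = ⊤)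
    {Q : Set G} (hQ : IsCompact Q) (hQΓ : ∀ g, ∃ q ∈ Q, ∃ γ ∈ Γ, g = q * γ)
    (hmin : ∀ U : Set G, IsOpen U → U.Nonempty → ∃ n : ℕ, ∃ γ ∈ Γ, a ^ n * γ ∈ U)
    {j : ℕ} {Φ : G → Circle} (hmul : ∀ x ∈ Del Γ (j + 1), ∀ y ∈ Del Γ (j + 1), Φ (x * y) = Φ x * Φ y)
    (htriv : ∀ x ∈ Del Γ (j + 2), Φ x = 1) (hc : ContinuousOn Φ (Del Γ (j + 1)))
    {B : Set G} (hB : B ∈ 𝓝 (1 : G))
    (hfreq : ∃ᶠ n : ℕ in atTop, ∀ h ∈ B, h ∈ LCS G j → ((Φ ⁅a, h⁆ : ℂ)) ^ n ≠ -1) :
    ∀ x ∈ Del Γ (j + 1), Φ x = 1 := by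
  have hcomm : Continuous (fun p : G × G => ⁅p.1, p.2⁆) := by
    simp only [commutatorElement_def]
    fun_prop
  have hΦ1 : Φ 1 = 1 := htriv 1 (one_mem _)
  have hinv : ∀ x ∈ Del Γ (j + 1), Φ x⁻¹ = (Φ x)⁻¹ := by
    intro x hx
    have := hmul x hx x⁻¹ (inv_mem hx)
    rw [mul_inv_cancel, hΦ1] at this
    exact eq_inv_of_mul_eq_one_right this.symm
  have hΦ : IsChar (j + 1) Φ :=
    ⟨fun x hx y hy => hmul x (LCS_le_Del Γ _ hx) y (LCS_le_Del Γ _ hy),
      fun x hx => htriv x (LCS_le_Del Γ _ hx)⟩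
  have hcL : ContinuousOn Φ (LCS G (j + 1)) := hc.mono (fun x hx => LCS_le_Del Γ _ hx)
  -- step 1
  have step1 : ∀ x ∈ LCS G j, Φ ⁅x, a⁆ = 1 := by
    refine small_trivial hE j (fun x : G => Φ ⁅x, a⁆) (hΦ.comm_fst a) ?_ ?_ ?_
    · refine hcL.comp (Continuous.continuousOn ?_) ?_
      · exact hcomm.comp (by fun_prop : Continuous fun x : G => (x, a))
      · intro x hx
        exact comm_mem hx a
    · refine ⟨B, hB, hfreq.mono fun n hn h hh hL => ?_⟩
      have h1 : Φ ⁅h, a⁆ = (Φ ⁅a, h⁆)⁻¹ := by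
        rw [← hinv _ (LCS_le_Del Γ _ (comm_mem' hL a)), commutatorElement_inv]
      intro h2
      apply hn h hh hL
      simp only [h1] at h2
      have h3 : (((Φ ⁅a, h⁆)⁻¹ : Circle) : ℂ) ^ n = ((((Φ ⁅a, h⁆) ^ n)⁻¹ : Circle) : ℂ) := by
        rw [← inv_pow]; simp
      rw [h3, Circle.coe_inv] at h2
      have h4 : ((((Φ ⁅a, h⁆) ^ n) : Circle) : ℂ) = -1 := by
        rw [← inv_inv (((((Φ ⁅a, h⁆) ^ n) : Circle) : ℂ)), h2]
        norm_num
      simpa using h4
    · rintro rfl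
      simp [hΦ1]
  -- the function s ↦ Φ ⁅x, s⁆
  have step2 : ∀ x ∈ Γ, x ∈ LCS G j → ∀ s, Φ ⁅x, s⁆ = 1 := by
    intro x hxΓ hxL
    have hconj : ∀ g, g⁻¹ * x * g ∈ Del Γ (j + 1) := by
      intro g
      have h1 : g⁻¹ * x * g = ⁅g⁻¹, x⁆ * x := by simp [commutatorElement_def]
      rw [h1]
      exact mul_mem (LCS_le_Del Γ _ (comm_mem' hxL _)) (Gam_le_Del Γ _ hxΓ)
    have hRc : Continuous (fun g : G => Φ (g⁻¹ * x * g)) := by
      rw [← continuousOn_univ]
      refine hc.comp (f := fun g : G => g⁻¹ * x * g) (Continuous.continuousOn (by fun_prop)) ?_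
      intro g _
      exact hconj g
    have hRmul : ∀ g, Φ (g⁻¹ * x * g) = Φ ⁅g⁻¹, x⁆ := by
      intro g
      have h1 : g⁻¹ * x * g = ⁅g⁻¹, x⁆ * x := by simp [commutatorElement_def]
      rw [h1, hmul _ (LCS_le_Del Γ _ (comm_mem' hxL _)) _ (Gam_le_Del Γ _ hxΓ),
        htriv x (Gam_le_Del Γ _ hxΓ), mul_one]
    have hswap : ∀ g, Φ ⁅g, x⁆ = (Φ ⁅x, g⁆)⁻¹ := by
      intro g
      rw [← hinv _ (LCS_le_Del Γ _ (comm_mem hxL g)), commutatorElement_inv]
    let hx : G →* Circle := MonoidHom.mk' (fun s : G => Φ ⁅x, s⁆) (fun s t => hΦ.comm_snd hxL s t)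
    have hxa : hx a = 1 := step1 x hxL
    have hRan : ∀ n : ℕ, Φ ((a ^ n)⁻¹ * x * a ^ n) = 1 := by
      intro n
      rw [hRmul, hswap]
      have : hx (a ^ n)⁻¹ = 1 := by
        rw [map_inv, map_pow, hxa, one_pow, inv_one]
      have h2 : Φ ⁅x, (a ^ n)⁻¹⁆ = 1 := this
      rw [h2, inv_one]
    have hRanγ : ∀ n : ℕ, ∀ γ ∈ Γ, Φ ((a ^ n * γ)⁻¹ * x * (a ^ n * γ)) = 1 := by
      intro n γ hγ
      have h1 : (a ^ n * γ)⁻¹ * x * (a ^ n * γ) = γ⁻¹ * ((a ^ n)⁻¹ * x * a ^ n) * γ := by group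
      have hγ' : γ ∈ Del Γ (j + 1) := Gam_le_Del Γ _ hγ
      rw [h1, hmul _ (mul_mem (inv_mem hγ') (hconj _)) _ hγ', hmul _ (inv_mem hγ') _ (hconj _),
        hRan, htriv γ (Gam_le_Del Γ _ hγ), htriv γ⁻¹ (inv_mem (Gam_le_Del Γ _ hγ)), one_mul, one_mul]
    have hRall : ∀ g, Φ (g⁻¹ * x * g) = 1 := by
      intro g
      by_contra hne
      obtain ⟨n, γ, hγ, hn⟩ := hmin {g | Φ (g⁻¹ * x * g) ≠ 1} (isOpen_ne.preimage hRc) ⟨g, hne⟩
      exact hn (hRanγ n γ hγ)
    intro s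
    have h1 := hRall s⁻¹
    rw [hRmul, inv_inv, hswap] at h1
    exact inv_eq_one.mp h1
  -- step 3
  have step3 : ∀ s, ∀ x ∈ LCS G j, Φ ⁅x, s⁆ = 1 := by
    refine family_trivial hE hQ hQΓ j (fun s x => Φ ⁅x, s⁆) (fun s => hΦ.comm_fst s)
      (fun s s' x hx => hΦ.comm_snd hx s s') ?_ (fun s x hxΓ hx => step2 x hxΓ hx s) step1
    refine hcL.comp (f := fun p : G × G => ⁅p.2, p.1⁆) (Continuous.continuousOn ?_) ?_
    · simp only [commutatorElement_def]
      fun_prop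
    · rintro p ⟨_, hp⟩
      exact comm_mem hp _
  have step4 : ∀ x ∈ LCS G (j + 1), Φ x = 1 :=
    hΦ.eq_one_of_comm (fun x hx g => step3 g x hx)
  -- step 5 : density
  intro x hx
  have hclosed : IsClosed ((Del Γ (j + 1) : Set G) ∩ Φ ⁻¹' {1}) :=
    hc.preimage_isClosed_of_isClosed (isClosed_Del Γ _) isClosed_singleton
  refine (Del_induction Γ hclosed ?_ hx).2
  intro y hy
  refine ⟨sup_le_Del Γ _ hy, ?_⟩
  obtain ⟨c, hcL', γ, hγ, rfl⟩ := Subgroup.mem_sup_of_normal_left.mp hy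
  change Φ (c * γ) = 1
  rw [hmul _ (LCS_le_Del Γ _ hcL') _ (Gam_le_Del Γ _ hγ), step4 c hcL',
    htriv γ (Gam_le_Del Γ _ hγ), one_mul]

end

/-! ## The inductive step -/

section

variable {G : Type*} [Group G] [TopologicalSpace G] [IsTopologicalGroup G]
variable (Γ : Subgroup G)

/-- `Del (j+1)` as a subgroup of `Del j` -/
abbrev Sb (j : ℕ) : Subgroup (Del Γ j) := (Del Γ (j + 1)).subgroupOf (Del Γ j)

instance Sb_normal (j : ℕ) : (Sb Γ j).Normal :=
  ⟨fun n hn g => by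
    rw [Subgroup.mem_subgroupOf] at hn ⊢
    exact conj_Del Γ g.2 hn⟩

instance Sb_closed (j : ℕ) : IsClosed (Sb Γ j : Set (Del Γ j)) :=
  (isClosed_Del Γ (j + 1)).preimage continuous_subtype_val

/-- the fibre group -/
noncomputable instance fibre_comm (j : ℕ) : CommGroup (Del Γ j ⧸ Sb Γ j) :=
  { (inferInstance : Group (Del Γ j ⧸ Sb Γ j)) with
    mul_comm := by
      intro x y
      induction x using QuotientGroup.induction_on with
      | H x =>
        induction y using QuotientGroup.induction_on with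
        | H y =>
          rw [← QuotientGroup.mk_mul, ← QuotientGroup.mk_mul, QuotientGroup.eq]
          rw [Subgroup.mem_subgroupOf]
          have h1 : ((((x * y)⁻¹ * (y * x) : Del Γ j)) : G) = ⁅(y : G)⁻¹, (x : G)⁻¹⁆ := by
            simp only [commutatorElement_def]
            push_cast
            group
          rw [h1]
          exact comm_Del Γ (inv_mem y.2) (inv_mem x.2) }

theorem fibre_compact {Q : Set G} (hQ : IsCompact Q) (hQΓ : ∀ g, ∃ q ∈ Q, ∃ γ ∈ Γ, g = q * γ)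
    (j : ℕ) : CompactSpace (Del Γ j ⧸ Sb Γ j) := by
  have h1 : IsCompact ((fun x : Del Γ j => (x : G)) ⁻¹' Q) := by
    have h2 : Subtype.val '' ((fun x : Del Γ j => (x : G)) ⁻¹' Q) = (Del Γ j : Set G) ∩ Q := by
      ext x
      constructor
      · rintro ⟨y, hy, rfl⟩
        exact ⟨y.2, hy⟩
      · rintro ⟨hx1, hx2⟩
        exact ⟨⟨x, hx1⟩, hx2, rfl⟩
    have h3 : IsCompact (Subtype.val '' ((fun x : Del Γ j => (x : G)) ⁻¹' Q)) := by
      rw [h2]
      exact hQ.inter_left (isClosed_Del Γ j)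
    exact Topology.IsInducing.subtypeVal.isCompact_iff.mpr h3
  have h2 := h1.image (QuotientGroup.continuous_mk (N := Sb Γ j))
  refine ⟨?_⟩
  convert h2
  symm
  rw [eq_univ_iff_forall]
  intro k
  induction k using QuotientGroup.induction_on with
  | H x =>
    obtain ⟨q, hq, γ, hγ, hx⟩ := hQΓ x
    have hqD : q ∈ Del Γ j := by
      have : q = x * γ⁻¹ := by rw [hx]; group
      rw [this]
      exact mul_mem x.2 (inv_mem (Gam_le_Del Γ _ hγ))
    refine ⟨⟨q, hqD⟩, hq, ?_⟩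
    rw [QuotientGroup.eq, Subgroup.mem_subgroupOf]
    have h3 : (((⟨q, hqD⟩ : Del Γ j)⁻¹ * x : Del Γ j) : G) = γ := by
      push_cast
      rw [hx]
      group
    rw [h3]
    exact Gam_le_Del Γ _ hγ

/-- transitivity along `A` modulo `LCS k` and `Γ` -/
def TransMod (A : Set ℕ) (a : G) (k : ℕ) : Prop :=
  ∀ U V : Set G, IsOpen U → IsOpen V → U.Nonempty → V.Nonempty →
    {n : ℕ | n ∈ A ∧ ∃ u ∈ U, ∃ d ∈ LCS G k ⊔ Γ, a ^ n * u * d ∈ V}.Infinite

theorem comm_pow_mk {a : G} {j : ℕ} {h : G} (hh : h ∈ LCS G j) (n : ℕ) :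
    (QuotientGroup.mk (⟨⁅a, h⁆, LCS_le_Del Γ _ (comm_mem' hh a)⟩ : Del Γ (j + 1)) :
      Del Γ (j + 1) ⧸ Sb Γ (j + 1)) ^ n =
    QuotientGroup.mk (⟨⁅a ^ n, h⁆, LCS_le_Del Γ _ (comm_mem' hh (a ^ n))⟩ : Del Γ (j + 1)) := by
  induction n with
  | zero =>
    rw [pow_zero, eq_comm, QuotientGroup.eq_one_iff, Subgroup.mem_subgroupOf]
    simp
  | succ n ih =>
    rw [pow_succ, ih, ← QuotientGroup.mk_mul, QuotientGroup.eq, Subgroup.mem_subgroupOf]
    have h1 : ⁅a ^ (n + 1), h⁆ = ⁅a, ⁅a ^ n, h⁆⁆ * ⁅a ^ n, h⁆ * ⁅a, h⁆ := by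
      rw [pow_succ', comm_mul_left]
    push_cast
    rw [h1]
    have h2 : ⁅a, ⁅a ^ n, h⁆⁆ ∈ LCS G (j + 2) := comm_mem' (comm_mem' hh _) _
    have h3 : (⁅a ^ n, h⁆ * ⁅a, h⁆)⁻¹ * (⁅a, ⁅a ^ n, h⁆⁆ * ⁅a ^ n, h⁆ * ⁅a, h⁆) =
      (⁅a ^ n, h⁆ * ⁅a, h⁆)⁻¹ * ⁅a, ⁅a ^ n, h⁆⁆ * (⁅a ^ n, h⁆ * ⁅a, h⁆)⁻¹⁻¹ := by group
    rw [h3]
    exact LCS_le_Del Γ _ ((LCS_normal (G := G) (j + 2)).conj_mem _ h2 _)

/-- the homomorphism `h ↦ ⁅a, h⁆` -/
noncomputable def theta (a : G) (j : ℕ) : LCS G j →* (Del Γ (j + 1) ⧸ Sb Γ (j + 1)) :=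
  MonoidHom.mk' (fun h => QuotientGroup.mk ⟨⁅a, (h : G)⁆, LCS_le_Del Γ _ (comm_mem' h.2 a)⟩) (by
    intro x y
    rw [← QuotientGroup.mk_mul, eq_comm, QuotientGroup.eq, Subgroup.mem_subgroupOf]
    push_cast
    have h1 : ⁅a, (x : G) * y⁆ = ⁅a, (x : G)⁆ * (⁅(x : G), ⁅a, (y : G)⁆⁆ * ⁅a, (y : G)⁆) :=
      comm_mul_right _ _ _
    rw [h1]
    have h2 : ⁅(x : G), ⁅a, (y : G)⁆⁆ ∈ LCS G (j + 2) := comm_mem' (comm_mem' y.2 _) _
    have h3 : (⁅a, (x : G)⁆ * ⁅a, (y : G)⁆)⁻¹ *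
        (⁅a, (x : G)⁆ * (⁅(x : G), ⁅a, (y : G)⁆⁆ * ⁅a, (y : G)⁆)) =
        ⁅a, (y : G)⁆⁻¹ * ⁅(x : G), ⁅a, (y : G)⁆⁆ * ⁅a, (y : G)⁆⁻¹⁻¹ := by group
    rw [h3]
    exact LCS_le_Del Γ _ ((LCS_normal (G := G) (j + 2)).conj_mem _ h2 _))

theorem theta_apply (a : G) (j : ℕ) (h : LCS G j) :
    theta Γ a j h = QuotientGroup.mk ⟨⁅a, (h : G)⁆, LCS_le_Del Γ _ (comm_mem' h.2 a)⟩ := rfl

/-- sweeping of the fibre -/
theorem fibre_sweep [LocallyConnectedSpace G] {a : G}
    (hE : ∀ H : Subgroup G, IsOpen (H : Set G) → a ∈ H → H = ⊤)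
    {Q : Set G} (hQ : IsCompact Q) (hQΓ : ∀ g, ∃ q ∈ Q, ∃ γ ∈ Γ, g = q * γ)
    (hmin : ∀ U : Set G, IsOpen U → U.Nonempty → ∃ n : ℕ, ∃ γ ∈ Γ, a ^ n * γ ∈ U)
    (j : ℕ) {B : Set G} (hB : B ∈ 𝓝 (1 : G)) {W : Set G} (hW : W ∈ 𝓝 (1 : G)) :
    ∀ᶠ n : ℕ in atTop, ∀ d ∈ Del Γ (j + 1), ∃ h ∈ B, h ∈ LCS G j ∧
      ∃ w ∈ W, ∃ e ∈ Del Γ (j + 2), ⁅a ^ n, h⁆ * d⁻¹ = w * e := by
  have hcomp := fibre_compact Γ hQ hQΓ (j + 1)
  have hBL : ((↑) : LCS G j → G) ⁻¹' B ∈ 𝓝 (1 : LCS G j) :=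
    continuous_subtype_val.continuousAt.preimage_mem_nhds (by simpa using hB)
  have hW1 : ((↑) : Del Γ (j + 1) → G) ⁻¹' W ∈ 𝓝 (1 : Del Γ (j + 1)) :=
    continuous_subtype_val.continuousAt.preimage_mem_nhds (by simpa using hW)
  have hW2 : (QuotientGroup.mk : Del Γ (j + 1) → Del Γ (j + 1) ⧸ Sb Γ (j + 1)) ''
      (((↑) : Del Γ (j + 1) → G) ⁻¹' W) ∈ 𝓝 (1 : Del Γ (j + 1) ⧸ Sb Γ (j + 1)) := by
    have := (QuotientGroup.isOpenMap_coe (N := Sb Γ (j + 1))).image_mem_nhds hW1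
    simpa using this
  have key := sweep (theta Γ a j) ?_ hBL hW2
  · filter_upwards [key] with n hn d hd
    obtain ⟨h, hh, w, hw, hwn⟩ := hn (QuotientGroup.mk ⟨d, hd⟩)
    refine ⟨h, hh, h.2, w, hw, ?_⟩
    rw [theta_apply, comm_pow_mk Γ h.2 n, ← QuotientGroup.mk_inv, ← QuotientGroup.mk_mul,
      QuotientGroup.eq, Subgroup.mem_subgroupOf] at hwn
    refine ⟨_, hwn, ?_⟩
    push_cast
    group
  · intro χ hχc hχ B' hB'
    by_contra hcon
    rw [Filter.not_eventually] at hcon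
    classical
    let Φ : G → Circle := fun x => if hx : x ∈ Del Γ (j + 1) then
      χ (QuotientGroup.mk ⟨x, hx⟩) else 1
    have hΦ : ∀ x (hx : x ∈ Del Γ (j + 1)), Φ x = χ (QuotientGroup.mk ⟨x, hx⟩) := by
      intro x hx
      simp only [Φ, dif_pos hx]
    obtain ⟨B'', hB'', hBB⟩ := (mem_nhds_subtype (LCS G j : Set G) (1 : LCS G j) B').mp hB'
    have h0 := char_Del_trivial Γ hE hQ hQΓ hmin (j := j) (Φ := Φ) ?_ ?_ ?_ (B := B'') hB'' ?_
    · obtain ⟨k, hk⟩ := hχ
      apply hk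
      induction k using QuotientGroup.induction_on with
      | H x =>
        rw [← hΦ x.1 x.2]
        exact h0 x.1 x.2
    · intro x hx y hy
      rw [hΦ x hx, hΦ y hy, hΦ (x * y) (mul_mem hx hy), ← map_mul, ← QuotientGroup.mk_mul]
      rfl
    · intro x hx
      have hx' : x ∈ Del Γ (j + 1) := Del_anti Γ _ hx
      rw [hΦ x hx']
      have : (QuotientGroup.mk (⟨x, hx'⟩ : Del Γ (j + 1)) : Del Γ (j + 1) ⧸ Sb Γ (j + 1)) = 1 := by
        rw [QuotientGroup.eq_one_iff, Subgroup.mem_subgroupOf]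
        exact hx
      rw [this, map_one]
    · rw [continuousOn_iff_continuous_domRestrict]
      have : (Del Γ (j + 1) : Set G).domRestrict Φ =
          fun x : Del Γ (j + 1) => χ (QuotientGroup.mk x) := by
        ext1 x
        exact hΦ x.1 x.2
      rw [this]
      exact hχc.comp QuotientGroup.continuous_mk
    · refine hcon.mono fun n hn h hh hL => ?_
      intro h2
      apply hn
      refine ⟨⟨h, hL⟩, hBB hh, ?_⟩
      rw [hΦ _ (LCS_le_Del Γ _ (comm_mem' hL a))] at h2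
      exact h2

/-- the inductive step -/
theorem transMod_step [LocallyConnectedSpace G] {a : G}
    (hE : ∀ H : Subgroup G, IsOpen (H : Set G) → a ∈ H → H = ⊤)
    {Q : Set G} (hQ : IsCompact Q) (hQΓ : ∀ g, ∃ q ∈ Q, ∃ γ ∈ Γ, g = q * γ)
    (hmin : ∀ U : Set G, IsOpen U → U.Nonempty → ∃ n : ℕ, ∃ γ ∈ Γ, a ^ n * γ ∈ U)
    {A : Set ℕ} {j : ℕ} (hT : TransMod Γ A a (j + 1)) : TransMod Γ A a (j + 2) := by
  intro U V hU hV ⟨x, hx⟩ ⟨y, hy⟩
  -- neighborhoods
  obtain ⟨B1, hB1, U1, hU1, hBU⟩ : ∃ B1 ∈ 𝓝 (1 : G), ∃ U1 ∈ 𝓝 x, ∀ b ∈ B1, ∀ u ∈ U1, b * u ∈ U := by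
    have h1 : {p : G × G | p.1 * p.2 ∈ U} ∈ 𝓝 ((1 : G), x) := by
      apply (continuous_mul (M := G)).continuousAt.preimage_mem_nhds
      simpa using hU.mem_nhds hx
    rw [nhds_prod_eq, Filter.mem_prod_iff] at h1
    obtain ⟨B1, hB1, U1, hU1, h⟩ := h1
    refine ⟨B1, hB1, U1, hU1, fun b hb u hu => ?_⟩
    have : ((b, u) : G × G) ∈ B1 ×ˢ U1 := ⟨hb, hu⟩
    exact h this
  obtain ⟨B2, hB2, V1, hV1, W, hW, hBVW⟩ : ∃ B2 ∈ 𝓝 (1 : G), ∃ V1 ∈ 𝓝 y, ∃ W ∈ 𝓝 (1 : G),
      ∀ b ∈ B2, ∀ v ∈ V1, ∀ w ∈ W, b * v * w ∈ V := by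
    have h1 : {p : G × G × G | p.1 * p.2.1 * p.2.2 ∈ V} ∈ 𝓝 ((1 : G), y, (1 : G)) := by
      apply (by fun_prop : Continuous fun p : G × G × G =>
        p.1 * p.2.1 * p.2.2).continuousAt.preimage_mem_nhds
      simpa using hV.mem_nhds hy
    rw [nhds_prod_eq, Filter.mem_prod_iff] at h1
    obtain ⟨B2, hB2, C, hC, h⟩ := h1
    rw [nhds_prod_eq, Filter.mem_prod_iff] at hC
    obtain ⟨V1, hV1, W, hW, hVW⟩ := hC
    refine ⟨B2, hB2, V1, hV1, W, hW, fun b hb v hv w hw => ?_⟩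
    have h2 : ((v, w) : G × G) ∈ V1 ×ˢ W := ⟨hv, hw⟩
    have : ((b, v, w) : G × G × G) ∈ B2 ×ˢ C := ⟨hb, hVW h2⟩
    exact h this
  obtain ⟨U2, hU2U, hU2o, hxU2⟩ := mem_nhds_iff.mp hU1
  obtain ⟨V2, hV2V, hV2o, hyV2⟩ := mem_nhds_iff.mp hV1
  have hinf := hT U2 V2 hU2o hV2o ⟨x, hxU2⟩ ⟨y, hyV2⟩
  have hsweep := fibre_sweep Γ hE hQ hQΓ hmin j (inter_mem hB1 hB2) hW
  obtain ⟨N, hN⟩ := eventually_atTop.mp hsweep
  have hinf2 : ({n : ℕ | n ∈ A ∧ ∃ u ∈ U2, ∃ d ∈ LCS G (j + 1) ⊔ Γ, a ^ n * u * d ∈ V2} \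
      {n | n < N}).Infinite := hinf.sdiff (finite_lt_nat N)
  refine hinf2.mono ?_
  rintro n ⟨⟨hnA, u, hu, d, hd, hmem⟩, hnN⟩
  have hnN' : N ≤ n := not_lt.mp hnN
  refine ⟨hnA, ?_⟩
  have hdD : d ∈ Del Γ (j + 1) := sup_le_Del Γ _ hd
  obtain ⟨h, hhB, hhL, w, hw, e, he, hcd⟩ := hN n hnN' d hdD
  -- set v
  set v := a ^ n * u * d with hv
  set c := ⁅a ^ n, h⁆ with hc
  have hcL : c ∈ LCS G (j + 1) := comm_mem' hhL _
  set ε := ⁅c⁻¹, (h * v)⁻¹⁆ with hε
  have hεL : ε ∈ LCS G (j + 2) := comm_mem (inv_mem hcL) _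
  have hεD : d * ε * d⁻¹ ∈ Del Γ (j + 2) := conj_Del Γ hdD (LCS_le_Del Γ _ hεL)
  have key : a ^ n * (h * u) = (h * v) * w * (e * (d * ε * d⁻¹)) := by
    have h1 : a ^ n * (h * u) = c * h * (a ^ n * u) := by
      simp only [hc, commutatorElement_def]; group
    have h2 : a ^ n * u = v * d⁻¹ := by rw [hv]; group
    have h3 : c * (h * v) = (h * v) * c * ε := by
      simp only [hε, commutatorElement_def]; group
    calc a ^ n * (h * u) = c * (h * v) * d⁻¹ := by rw [h1, h2]; group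
      _ = (h * v) * (c * d⁻¹) * (d * ε * d⁻¹) := by rw [h3]; group
      _ = _ := by rw [hcd]; group
  have hfin : a ^ n * (h * u) * (e * (d * ε * d⁻¹))⁻¹ ∈ V := by
    rw [key, mul_inv_cancel_right]
    exact hBVW h hhB.2 v (hV2V hmem) w hw
  have hD2 : (e * (d * ε * d⁻¹))⁻¹ ∈ Del Γ (j + 2) := inv_mem (mul_mem he hεD)
  -- replace by an element of the dense subgroup
  have hopen : IsOpen {z : G | a ^ n * (h * u) * z ∈ V} :=
    hV.preimage (by fun_prop : Continuous fun z : G => a ^ n * (h * u) * z)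
  have hcl : (e * (d * ε * d⁻¹))⁻¹ ∈ closure ((LCS G (j + 2) ⊔ Γ : Subgroup G) : Set G) := hD2
  obtain ⟨z, hz1, hz2⟩ := mem_closure_iff.mp hcl _ hopen hfin
  exact ⟨h * u, hBU h hhB.1 u (hU2U hu), z, hz2, hz1⟩

/-- from the abelian factor to the top -/
theorem transMod_all [LocallyConnectedSpace G] {a : G}
    (hE : ∀ H : Subgroup G, IsOpen (H : Set G) → a ∈ H → H = ⊤)
    {Q : Set G} (hQ : IsCompact Q) (hQΓ : ∀ g, ∃ q ∈ Q, ∃ γ ∈ Γ, g = q * γ)
    (hmin : ∀ U : Set G, IsOpen U → U.Nonempty → ∃ n : ℕ, ∃ γ ∈ Γ, a ^ n * γ ∈ U)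
    {A : Set ℕ} (hT : TransMod Γ A a 1) (j : ℕ) : TransMod Γ A a (j + 1) := by
  induction j with
  | zero => exact hT
  | succ j ih => exact transMod_step Γ hE hQ hQΓ hmin ih

end

/-! ## Rotations of compact abelian groups -/

theorem iterate_mul_left {Z : Type*} [Monoid Z] (α : Z) (n : ℕ) (z : Z) :
    (fun z => α * z)^[n] z = α ^ n * z := by
  induction n with
  | zero => simp
  | succ n ih => rw [Function.iterate_succ_apply', ih, pow_succ', mul_assoc]

/-- a rotation of a compact metrizable group -/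
theorem re_rotation {A : Set ℕ} (hA : IsReSequence A) {Z : Type} [Group Z] [TopologicalSpace Z]
    [IsTopologicalGroup Z] [CompactSpace Z] [T2Space Z] [SecondCountableTopology Z] (α : Z)
    (hmin : ∀ U : Set Z, IsOpen U → U.Nonempty → ∀ z, ∃ n : ℕ, 1 ≤ n ∧ α ^ n * z ∈ U) :
    ∃ x : Z, ∀ U : Set Z, IsOpen U → U.Nonempty → ∃ n ∈ A, α ^ n * x ∈ U := by
  let _ : MetricSpace Z := TopologicalSpace.metrizableSpaceMetric Z
  have hc : Continuous (fun z : Z => α * z) := continuous_const_mul α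
  have hs : Function.Surjective (fun z : Z => α * z) := mul_left_surjective α
  have hm : IsMinimalMap (fun z : Z => α * z) := by
    intro z
    rw [dense_iff_inter_open]
    intro U hU hne
    obtain ⟨n, hn, hmem⟩ := hmin U hU hne z
    exact ⟨_, hmem, n, hn, iterate_mul_left α n z⟩
  have he : Equicontinuous (fun n : ℕ => (fun z : Z => α * z)^[n]) := by
    have huc : UniformContinuous (fun p : Z × Z => p.1 * p.2) :=
      CompactSpace.uniformContinuous_of_continuous continuous_mul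
    apply UniformEquicontinuous.equicontinuous
    rw [Metric.uniformEquicontinuous_iff]
    intro ε hε
    rw [Metric.uniformContinuous_iff] at huc
    obtain ⟨δ, hδ, h⟩ := huc ε hε
    refine ⟨δ, hδ, fun x y hxy n => ?_⟩
    rw [iterate_mul_left, iterate_mul_left]
    exact h (a := (α ^ n, x)) (b := (α ^ n, y)) (by simpa [Prod.dist_eq, hδ] using hxy)
  obtain ⟨x, hx⟩ := hA Z _ hc hs hm he
  refine ⟨x, fun U hU hne => ?_⟩
  obtain ⟨y, hyU, n, hn, hy⟩ := (dense_iff_inter_open.mp hx) U hU hne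
  rw [iterate_mul_left] at hy
  exact ⟨n, hn, hy ▸ hyU⟩

theorem re_mod {A : Set ℕ} (hA : IsReSequence A) (m k : ℕ) (hm : 0 < m) :
    {n : ℕ | n ∈ A ∧ n ≡ k [MOD m]}.Infinite := by
  rw [Set.infinite_iff_exists_gt]
  intro N
  set M : ℕ := m * (N + k + 2) with hM
  have hMpos : 0 < M := by positivity
  have : NeZero M := ⟨hMpos.ne'⟩
  set r : ℕ := k + m * (N + 1) with hr
  have hrM : r < M := by
    rw [hr, hM]
    nlinarith
  have hrN : N < r := by
    rw [hr]
    nlinarith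
  let _ : TopologicalSpace (ZMod M) := ⊥
  have : DiscreteTopology (ZMod M) := ⟨rfl⟩
  have hpow : ∀ n : ℕ, (Multiplicative.ofAdd (1 : ZMod M)) ^ n = Multiplicative.ofAdd (n : ZMod M) := by
    intro n
    rw [← ofAdd_nsmul, nsmul_eq_mul, mul_one]
  obtain ⟨x, hx⟩ := re_rotation hA (Z := Multiplicative (ZMod M)) (Multiplicative.ofAdd (1 : ZMod M)) (by
    rintro U - ⟨u, hu⟩ z
    refine ⟨(Multiplicative.toAdd (u * z⁻¹)).val + M, by omega, ?_⟩
    rw [hpow]
    have : Multiplicative.ofAdd ((((Multiplicative.toAdd (u * z⁻¹)).val + M : ℕ) : ZMod M)) = u * z⁻¹ := by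
      push_cast
      simp
    rw [this, inv_mul_cancel_right]
    exact hu)
  obtain ⟨n, hnA, hn⟩ := hx {Multiplicative.ofAdd (r : ZMod M) * x} (isOpen_discrete _)
    (singleton_nonempty _)
  rw [mem_singleton_iff, hpow] at hn
  have h1 : Multiplicative.ofAdd (n : ZMod M) = Multiplicative.ofAdd (r : ZMod M) :=
    mul_right_cancel hn
  have h2 : (n : ZMod M) = (r : ZMod M) := Multiplicative.ofAdd.injective h1
  rw [ZMod.natCast_eq_natCast_iff] at h2
  have h3 : n % M = r := by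
    have := h2
    rw [Nat.ModEq, Nat.mod_eq_of_lt hrM] at this
    exact this
  refine ⟨n, ⟨hnA, ?_⟩, ?_⟩
  · have h4 : n ≡ r [MOD m] := h2.of_mul_right _
    have h5 : r ≡ k [MOD m] := by
      rw [hr]
      simp [Nat.ModEq]
    exact h4.trans h5
  · calc N < r := hrN
      _ = n % M := h3.symm
      _ ≤ n := Nat.mod_le _ _

/-- transitivity along `A` of a rotation of a compact metrizable abelian group -/
theorem re_abelian {A : Set ℕ} (hA : IsReSequence A) {Z : Type} [CommGroup Z] [TopologicalSpace Z]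
    [IsTopologicalGroup Z] [CompactSpace Z] [T2Space Z] [SecondCountableTopology Z] (α : Z)
    (hmin : ∀ U : Set Z, IsOpen U → U.Nonempty → ∀ z, ∃ n : ℕ, 1 ≤ n ∧ α ^ n * z ∈ U)
    {U V : Set Z} (hU : U.Nonempty) (hVo : IsOpen V) (hV : V.Nonempty) :
    {n : ℕ | n ∈ A ∧ ∃ u ∈ U, α ^ n * u ∈ V}.Infinite := by
  obtain ⟨u, hu⟩ := hU
  rcases finite_or_infinite Z with hfin | hinf
  · obtain ⟨k, -, hk⟩ := hmin V hVo hV u
    have hm : 0 < Nat.card Z := Nat.card_pos
    refine (re_mod hA (Nat.card Z) k hm).mono ?_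
    rintro n ⟨hnA, hn⟩
    refine ⟨hnA, u, hu, ?_⟩
    have h1 : α ^ n = α ^ k := by
      rw [pow_eq_pow_iff_modEq]
      exact hn.of_dvd (orderOf_dvd_natCard α)
    rw [h1]
    exact hk
  · obtain ⟨x, hx⟩ := re_rotation hA α hmin
    -- nonempty open sets are infinite
    have hopen : ∀ W : Set Z, IsOpen W → W.Nonempty → W.Infinite := by
      intro W hW ⟨w, hw⟩ hWfin
      have hsing : IsOpen ({w} : Set Z) := by
        have h2 : IsOpen (W \ (W \ {w})) := hW.sdiff (hWfin.sdiff).isClosed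
        have h3 : W \ (W \ {w}) = {w} := by
          ext y
          simp only [Set.mem_sdiff, mem_singleton_iff]
          constructor
          · rintro ⟨h4, h5⟩
            by_contra h6
            exact h5 ⟨h4, h6⟩
          · rintro rfl
            exact ⟨hw, fun h => h.2 rfl⟩
        rwa [h3] at h2
      have hdisc : DiscreteTopology Z := by
        have h1 : IsOpen ({1} : Set Z) := by
          have h2 := hsing.preimage (continuous_const_mul w)
          convert h2 using 1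
          ext y
          simp
        exact discreteTopology_of_isOpen_singleton_one h1
      have : Finite Z := finite_of_compact_of_discrete
      exact not_finite Z
    intro hF
    let V' : Set Z := (fun z => z * (x⁻¹ * u)) ⁻¹' V
    have hV'o : IsOpen V' := hVo.preimage (continuous_mul_const _)
    have hV' : V'.Nonempty := by
      obtain ⟨v, hv⟩ := hV
      refine ⟨v * (x⁻¹ * u)⁻¹, ?_⟩
      change v * (x⁻¹ * u)⁻¹ * (x⁻¹ * u) ∈ V
      rwa [inv_mul_cancel_right]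
    let F : Set Z := (fun n : ℕ => α ^ n * x) '' {n : ℕ | n ∈ A ∧ ∃ u ∈ U, α ^ n * u ∈ V}
    have hFfin : F.Finite := hF.image _
    have hne : (V' \ F).Nonempty := (hopen V' hV'o hV').sdiff hFfin |>.nonempty
    obtain ⟨n, hnA, hn1, hn2⟩ := hx (V' \ F) (hV'o.sdiff hFfin.isClosed) hne
    apply hn2
    refine ⟨n, ⟨hnA, u, hu, ?_⟩, rfl⟩
    have : α ^ n * x * (x⁻¹ * u) ∈ V := hn1
    have h4 : α ^ n * x * (x⁻¹ * u) = α ^ n * u := by group
    rwa [h4] at this

/-! ## The topological main theorem -/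

/-- second countability of a compact quotient -/
theorem secondCountable_quotient {G : Type*} [Group G] [TopologicalSpace G] [IsTopologicalGroup G]
    (H : Subgroup G) [CompactSpace (G ⧸ H)] {O : Set G} (hO : IsOpen O) (h1 : (1 : G) ∈ O)
    [SecondCountableTopology O] : SecondCountableTopology (G ⧸ H) := by
  let f : G → O → G ⧸ H := fun g x => QuotientGroup.mk (g * (x : G))
  have hfc : ∀ g, Continuous (f g) := fun g =>
    QuotientGroup.continuous_mk.comp ((continuous_const_mul g).comp continuous_subtype_val)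
  have hfo : ∀ g, IsOpenMap (f g) := fun g =>
    QuotientGroup.isOpenMap_coe.comp ((isOpenMap_mul_left g).comp hO.isOpenMap_subtype_val)
  have hsc : ∀ g, SecondCountableTopology (range (f g)) := by
    intro g
    have hq : IsQuotientMap (Set.rangeFactorization (f g)) := by
      apply IsOpenMap.isQuotientMap
      · exact (hfo g).subtype_mk _
      · exact (hfc g).subtype_mk _
      · exact Set.rangeFactorization_surjective
    exact hq.secondCountableTopology ((hfo g).subtype_mk _)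
  have hcov : (univ : Set (G ⧸ H)) ⊆ ⋃ g, range (f g) := by
    intro x _
    induction x using QuotientGroup.induction_on with
    | H g =>
      rw [mem_iUnion]
      exact ⟨g, ⟨1, h1⟩, by simp [f]⟩
  obtain ⟨t, ht⟩ := isCompact_univ.elim_finite_subcover (fun g => range (f g))
    (fun g => (hfo g).isOpen_range) hcov
  have : ∀ i : t, SecondCountableTopology (range (f i)) := fun i => hsc i
  refine TopologicalSpace.secondCountableTopology_of_countable_cover (U := fun i : t => range (f i))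
    (fun i => (hfo i).isOpen_range) ?_
  rw [eq_univ_iff_forall]
  intro x
  have := ht (mem_univ x)
  simp only [mem_iUnion] at this ⊢
  obtain ⟨i, hi, hx⟩ := this
  exact ⟨⟨i, hi⟩, hx⟩

/-- a compact set meeting all cosets, inside an open subgroup -/
theorem exists_compact_section {G : Type*} [Group G] [TopologicalSpace G] [IsTopologicalGroup G]
    [LocallyCompactSpace G] (Γ G' : Subgroup G) [CompactSpace (G ⧸ Γ)]
    (hG' : IsOpen (G' : Set G)) (htrans : ∀ g : G, ∃ h ∈ G', ∃ γ ∈ Γ, g = h * γ) :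
    ∃ Q : Set G', IsCompact Q ∧ ∀ g : G', ∃ q ∈ Q, ∃ γ ∈ Γ.subgroupOf G', g = q * γ := by
  have hlc : LocallyCompactSpace G' := hG'.locallyCompactSpace
  obtain ⟨V, hV, -, hVc⟩ : ∃ V ∈ 𝓝 (1 : G'), V ⊆ univ ∧ IsCompact V := by
    obtain ⟨V, hVc, hV⟩ := exists_compact_mem_nhds (1 : G')
    exact ⟨V, hV, subset_univ _, hVc⟩
  let f : G' → G' → G ⧸ Γ := fun g x => QuotientGroup.mk ((g * x : G') : G)
  have hfo : ∀ g, IsOpenMap (f g) := fun g =>
    QuotientGroup.isOpenMap_coe.comp (hG'.isOpenMap_subtype_val.comp (isOpenMap_mul_left g))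
  have hcov : (univ : Set (G ⧸ Γ)) ⊆ ⋃ g, f g '' (interior V) := by
    intro x _
    induction x using QuotientGroup.induction_on with
    | H g =>
      obtain ⟨h, hh, γ, hγ, rfl⟩ := htrans g
      rw [mem_iUnion]
      refine ⟨⟨h, hh⟩, 1, mem_interior_iff_mem_nhds.mpr hV, ?_⟩
      simp only [f, mul_one]
      rw [QuotientGroup.eq]
      simpa using hγ
  obtain ⟨t, ht⟩ := isCompact_univ.elim_finite_subcover (fun g => f g '' (interior V))
    (fun g => (hfo g) _ isOpen_interior) hcov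
  refine ⟨⋃ g ∈ t, (fun x => g * x) '' V, ?_, ?_⟩
  · exact t.finite_toSet.isCompact_biUnion fun g _ => hVc.image (continuous_const_mul g)
  · intro g
    have := ht (mem_univ (QuotientGroup.mk (g : G)))
    simp only [mem_iUnion] at this
    obtain ⟨i, hi, x, hx, hfx⟩ := this
    refine ⟨i * x, ?_, (i * x)⁻¹ * g, ?_, by group⟩
    · simp only [mem_iUnion]
      exact ⟨i, hi, x, interior_subset hx, rfl⟩
    · rw [Subgroup.mem_subgroupOf]
      simp only [f] at hfx
      rw [QuotientGroup.eq] at hfx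
      simpa using hfx

/-- the abelian factor -/
theorem transMod_one {G : Type} [Group G] [TopologicalSpace G] [IsTopologicalGroup G]
    (Γ : Subgroup G) {a : G} {Q : Set G} (hQ : IsCompact Q)
    (hQΓ : ∀ g, ∃ q ∈ Q, ∃ γ ∈ Γ, g = q * γ)
    (hmin : ∀ U : Set G, IsOpen U → U.Nonempty → ∀ g : G, ∃ n : ℕ, 1 ≤ n ∧ ∃ γ ∈ Γ,
      a ^ n * g * γ ∈ U)
    {O : Set G} (hO : IsOpen O) (h1 : (1 : G) ∈ O) [SecondCountableTopology O]
    {A : Set ℕ} (hA : IsReSequence A) : TransMod Γ A a 1 := by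
  have htop : ∀ d : G, d ∈ Del Γ 0 := fun d => LCS_le_Del Γ 0 (Subgroup.mem_top d)
  have hnormal : (Del Γ 1).Normal := ⟨fun n hn g => conj_Del Γ (htop g) hn⟩
  let _ : CommGroup (G ⧸ Del Γ 1) :=
    { (inferInstance : Group (G ⧸ Del Γ 1)) with
      mul_comm := by
        intro x y
        induction x using QuotientGroup.induction_on with
        | H x =>
          induction y using QuotientGroup.induction_on with
          | H y =>
            rw [← QuotientGroup.mk_mul, ← QuotientGroup.mk_mul, QuotientGroup.eq]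
            have h1 : ((x * y)⁻¹ * (y * x)) = ⁅y⁻¹, x⁻¹⁆ := by
              simp only [commutatorElement_def]
              group
            rw [h1]
            exact comm_Del Γ (htop _) (htop _) }
  have hclosed : IsClosed (Del Γ 1 : Set G) := isClosed_Del Γ 1
  have hcomp : CompactSpace (G ⧸ Del Γ 1) := by
    refine ⟨?_⟩
    convert hQ.image (QuotientGroup.continuous_mk (N := Del Γ 1))
    symm
    rw [eq_univ_iff_forall]
    intro k
    induction k using QuotientGroup.induction_on with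
    | H x =>
      obtain ⟨q, hq, γ, hγ, rfl⟩ := hQΓ x
      refine ⟨q, hq, ?_⟩
      rw [QuotientGroup.eq]
      simpa using Gam_le_Del Γ 1 hγ
  have hsc : SecondCountableTopology (G ⧸ Del Γ 1) := secondCountable_quotient _ hO h1
  intro U V hU hV hUne hVne
  have key := re_abelian hA (Z := G ⧸ Del Γ 1) (QuotientGroup.mk a) ?_
    (U := QuotientGroup.mk '' U) (V := QuotientGroup.mk '' V) (hUne.image _)
    (QuotientGroup.isOpenMap_coe V hV) (hVne.image _)
  · refine key.mono ?_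
    rintro n ⟨hnA, _, ⟨u, hu, rfl⟩, ⟨v, hv, hvn⟩⟩
    refine ⟨hnA, u, hu, ?_⟩
    rw [← QuotientGroup.mk_pow, ← QuotientGroup.mk_mul, eq_comm, QuotientGroup.eq] at hvn
    have hopen : IsOpen {z : G | a ^ n * u * z ∈ V} :=
      hV.preimage (by fun_prop : Continuous fun z : G => a ^ n * u * z)
    have hcl : (a ^ n * u)⁻¹ * v ∈ closure ((LCS G 1 ⊔ Γ : Subgroup G) : Set G) := hvn
    obtain ⟨z, hz1, hz2⟩ := mem_closure_iff.mp hcl _ hopen (by
      change a ^ n * u * ((a ^ n * u)⁻¹ * v) ∈ V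
      rwa [mul_inv_cancel_left])
    exact ⟨z, hz2, hz1⟩
  · intro W hW hWne z
    induction z using QuotientGroup.induction_on with
    | H g =>
      have hpre : IsOpen ((QuotientGroup.mk : G → G ⧸ Del Γ 1) ⁻¹' W) :=
        hW.preimage QuotientGroup.continuous_mk
      have hprene : ((QuotientGroup.mk : G → G ⧸ Del Γ 1) ⁻¹' W).Nonempty :=
        hWne.preimage QuotientGroup.mk_surjective
      obtain ⟨n, hn, γ, hγ, hmem⟩ := hmin _ hpre hprene g
      refine ⟨n, hn, ?_⟩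
      have h3 : (QuotientGroup.mk (a ^ n * g * γ) : G ⧸ Del Γ 1) ∈ W := hmem
      have h4 : (QuotientGroup.mk γ : G ⧸ Del Γ 1) = 1 :=
        (QuotientGroup.eq_one_iff γ).mpr (Gam_le_Del Γ 1 hγ)
      rw [QuotientGroup.mk_mul, h4, mul_one, QuotientGroup.mk_mul, QuotientGroup.mk_pow] at h3
      exact h3

/-- the smallest open subgroup containing `a` -/
def Gp {G : Type*} [Group G] [TopologicalSpace G] (a : G) : Subgroup G :=
  sInf {H : Subgroup G | IsOpen (H : Set G) ∧ a ∈ H}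

theorem mem_Gp {G : Type*} [Group G] [TopologicalSpace G] (a : G) : a ∈ Gp a := by
  rw [Gp, Subgroup.mem_sInf]
  rintro H ⟨-, h⟩
  exact h

theorem isOpen_Gp {G : Type*} [Group G] [TopologicalSpace G] [IsTopologicalGroup G]
    [LocallyConnectedSpace G] (a : G) : IsOpen (Gp a : Set G) := by
  apply Subgroup.isOpen_of_mem_nhds (g := 1)
  have h1 : connectedComponent (1 : G) ∈ 𝓝 (1 : G) :=
    isOpen_connectedComponent.mem_nhds mem_connectedComponent
  refine mem_of_superset h1 ?_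
  intro x hx
  change x ∈ Gp a
  rw [Gp, Subgroup.mem_sInf]
  rintro H ⟨hHo, -⟩
  have hclopen : IsClopen (H : Set G) := ⟨Subgroup.isClosed_of_isOpen H hHo, hHo⟩
  exact hclopen.connectedComponent_subset (one_mem H) hx

theorem Gp_spec {G : Type*} [Group G] [TopologicalSpace G] [IsTopologicalGroup G]
    [LocallyConnectedSpace G] (a : G) (H : Subgroup (Gp a)) (hH : IsOpen (H : Set (Gp a)))
    (ha : (⟨a, mem_Gp a⟩ : Gp a) ∈ H) : H = ⊤ := by
  have h1 : Gp a ≤ H.map (Gp a).subtype := by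
    apply sInf_le
    refine ⟨?_, ?_⟩
    · rw [Subgroup.coe_map]
      exact (isOpen_Gp a).isOpenMap_subtype_val _ hH
    · exact ⟨⟨a, mem_Gp a⟩, ha, rfl⟩
  rw [eq_top_iff]
  intro x _
  obtain ⟨y, hy, hyx⟩ := h1 x.2
  have : y = x := Subtype.ext hyx
  exact this ▸ hy

/-- transitivity along `A` for homogeneous spaces of nilpotent locally compact, locally connected
groups -/
theorem trans_top {G : Type} [Group G] [TopologicalSpace G] [IsTopologicalGroup G]
    [LocallyCompactSpace G] [LocallyConnectedSpace G] [Group.IsNilpotent G]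
    (Γ : Subgroup G) [CompactSpace (G ⧸ Γ)] (a : G)
    (hmin : IsMinimalMap (fun x : G ⧸ Γ => a • x))
    {O : Set G} (hO : IsOpen O) (h1 : (1 : G) ∈ O) [SecondCountableTopology O]
    {A : Set ℕ} (hA : IsReSequence A) {U V : Set (G ⧸ Γ)} (hU : IsOpen U) (hV : IsOpen V)
    (hUne : U.Nonempty) (hVne : V.Nonempty) : ∃ n ∈ A, ∃ x ∈ U, a ^ n • x ∈ V := by
  have hmin1 : ∀ W : Set G, IsOpen W → W.Nonempty → ∀ g : G, ∃ n : ℕ, 1 ≤ n ∧ ∃ γ ∈ Γ,
      a ^ n * g * γ ∈ W := by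
    intro W hW hWne g
    have h2 := dense_iff_inter_open.mp (hmin (QuotientGroup.mk g)) (QuotientGroup.mk '' W)
      (QuotientGroup.isOpenMap_coe W hW) (hWne.image _)
    obtain ⟨_, ⟨w, hw, rfl⟩, n, hn, hn2⟩ := h2
    refine ⟨n, hn, (a ^ n * g)⁻¹ * w, ?_, by rwa [mul_inv_cancel_left]⟩
    rw [smul_iterate] at hn2
    exact QuotientGroup.eq.mp hn2
  let G' := Gp a
  have hG'o : IsOpen (G' : Set G) := isOpen_Gp a
  let a' : G' := ⟨a, mem_Gp a⟩
  let Γ' : Subgroup G' := Γ.subgroupOf G'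
  have htrans : ∀ g : G, ∃ h ∈ G', ∃ γ ∈ Γ, g = h * γ := by
    intro g
    obtain ⟨n, -, γ, hγ, hmem⟩ := hmin1 (G' : Set G) hG'o ⟨1, one_mem G'⟩ g
    refine ⟨(a ^ n)⁻¹ * (a ^ n * g * γ), mul_mem (inv_mem (pow_mem (mem_Gp a) n)) hmem, γ⁻¹,
      inv_mem hγ, by group⟩
  obtain ⟨Q, hQ, hQΓ⟩ := exists_compact_section Γ G' hG'o htrans
  have hmin2 : ∀ W : Set G', IsOpen W → W.Nonempty → ∀ g : G', ∃ n : ℕ, 1 ≤ n ∧ ∃ γ ∈ Γ',
      a' ^ n * g * γ ∈ W := by
    intro W hW hWne g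
    obtain ⟨n, hn, γ, hγ, hmem⟩ := hmin1 (Subtype.val '' W) (hG'o.isOpenMap_subtype_val W hW)
      (hWne.image _) g
    obtain ⟨w, hw, hwe⟩ := hmem
    have hγG : γ ∈ G' := by
      have h3 : γ = ((a' ^ n * g : G') : G)⁻¹ * w := by
        rw [hwe]
        push_cast
        simp only [a']
        group
      rw [h3]
      exact mul_mem (inv_mem (a' ^ n * g).2) w.2
    refine ⟨n, hn, ⟨γ, hγG⟩, hγ, ?_⟩
    have h4 : a' ^ n * g * ⟨γ, hγG⟩ = w := by
      ext1
      rw [hwe]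
      rfl
    rw [h4]
    exact hw
  have hmin3 : ∀ W : Set G', IsOpen W → W.Nonempty → ∃ n : ℕ, ∃ γ ∈ Γ', a' ^ n * γ ∈ W := by
    intro W hW hWne
    obtain ⟨n, -, γ, hγ, hmem⟩ := hmin2 W hW hWne 1
    rw [mul_one] at hmem
    exact ⟨n, γ, hγ, hmem⟩
  have hlcon : LocallyConnectedSpace G' := hG'o.isOpenEmbedding_subtypeVal.locallyConnectedSpace
  let O' : Set G' := Subtype.val ⁻¹' O
  have hO' : IsOpen O' := hO.preimage continuous_subtype_val
  have hO'1 : (1 : G') ∈ O' := h1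
  have hO'sc : SecondCountableTopology O' := by
    let f : O' → O := fun x => ⟨x.1.1, x.2⟩
    have hf : IsInducing f := by
      have h5 : IsInducing (fun x : O' => ((x : G') : G)) :=
        IsInducing.subtypeVal.comp IsInducing.subtypeVal
      have h6 : (fun x : O' => ((x : G') : G)) = Subtype.val ∘ f := rfl
      rw [h6] at h5
      exact IsInducing.of_comp_iff IsInducing.subtypeVal |>.mp h5
    exact hf.secondCountableTopology
  have hT1 : TransMod Γ' A a' 1 := transMod_one Γ' hQ hQΓ hmin2 hO' hO'1 hA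
  have hTall := transMod_all Γ' (a := a') (fun H hH ha => Gp_spec a H hH ha) hQ hQΓ hmin3 hT1
  have hnil : Group.IsNilpotent G' := inferInstance
  obtain ⟨k, hk⟩ := Subgroup.nilpotent_iff_lowerCentralSeries.mp hnil
  have hk1 : LCS G' (k + 1) = ⊥ := by
    rw [eq_bot_iff, ← hk]
    exact LCS_le (Nat.le_succ k)
  let π : G' → G ⧸ Γ := fun g => QuotientGroup.mk (g : G)
  have hπ : Continuous π := QuotientGroup.continuous_mk.comp continuous_subtype_val
  have hπs : Function.Surjective π := by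
    intro x
    induction x using QuotientGroup.induction_on with
    | H g =>
      obtain ⟨h, hh, γ, hγ, rfl⟩ := htrans g
      refine ⟨⟨h, hh⟩, ?_⟩
      simp only [π]
      rw [QuotientGroup.eq]
      simpa using hγ
  obtain ⟨n, hnA, u, hu, d, hd, hmem⟩ := (hTall k (π ⁻¹' U) (π ⁻¹' V) (hU.preimage hπ)
    (hV.preimage hπ) (hUne.preimage hπs) (hVne.preimage hπs)).nonempty
  refine ⟨n, hnA, π u, hu, ?_⟩
  rw [hk1, bot_sup_eq] at hd
  have h7 : π (a' ^ n * u * d) = a ^ n • π u := by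
    change (QuotientGroup.mk (a ^ n * (u : G) * (d : G)) : G ⧸ Γ) = QuotientGroup.mk (a ^ n * (u : G))
    rw [eq_comm, QuotientGroup.eq]
    have h8 : (d : G) ∈ Γ := hd
    simpa [mul_assoc] using h8
  rw [← h7]
  exact hmem

/-- the topological main theorem -/
theorem main_top {G : Type} [Group G] [TopologicalSpace G] [IsTopologicalGroup G]
    [LocallyCompactSpace G] [LocallyConnectedSpace G] [Group.IsNilpotent G]
    (Γ : Subgroup G) (hΓ : IsClosed (Γ : Set G)) [CompactSpace (G ⧸ Γ)] (a : G)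
    (hmin : IsMinimalMap (fun x : G ⧸ Γ => a • x))
    {O : Set G} (hO : IsOpen O) (h1 : (1 : G) ∈ O) [SecondCountableTopology O]
    {A : Set ℕ} (hA : IsReSequence A) :
    ∃ y : G ⧸ Γ, Dense (orbitAlong (fun x : G ⧸ Γ => a • x) A y) := by
  have hsc : SecondCountableTopology (G ⧸ Γ) := secondCountable_quotient Γ hO h1
  have hne : Nonempty (G ⧸ Γ) := ⟨QuotientGroup.mk 1⟩
  let b := TopologicalSpace.countableBasis (G ⧸ Γ)
  have hb := TopologicalSpace.isBasis_countableBasis (G ⧸ Γ)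
  let D : Set (G ⧸ Γ) → Set (G ⧸ Γ) := fun V => ⋃ n ∈ A, (fun x => a ^ n • x) ⁻¹' V
  have hDo : ∀ V ∈ b, IsOpen (D V) := by
    intro V hV
    exact isOpen_biUnion fun n _ =>
      (TopologicalSpace.isOpen_of_mem_countableBasis hV).preimage (continuous_const_smul _)
  have hDd : ∀ V ∈ b, Dense (D V) := by
    intro V hV
    rw [dense_iff_inter_open]
    intro U hU hUne
    obtain ⟨n, hn, x, hx, hxV⟩ := trans_top Γ a hmin hO h1 hA hU
      (TopologicalSpace.isOpen_of_mem_countableBasis hV) hUne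
      (TopologicalSpace.nonempty_of_mem_countableBasis hV)
    refine ⟨x, hx, ?_⟩
    simp only [D, mem_iUnion]
    exact ⟨n, hn, hxV⟩
  have hdense : Dense (⋂ V ∈ b, D V) :=
    dense_biInter_of_isOpen hDo (TopologicalSpace.countable_countableBasis _) hDd
  obtain ⟨y, hy⟩ := hdense.nonempty
  refine ⟨y, ?_⟩
  rw [hb.dense_iff]
  intro V hV hVne
  have h2 : y ∈ D V := by
    rw [mem_iInter₂] at hy
    exact hy V hV
  simp only [D, mem_iUnion] at h2
  obtain ⟨n, hn, hyV⟩ := h2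
  refine ⟨a ^ n • y, hyV, n, hn, ?_⟩
  rw [smul_iterate]

end Pool.Agent.helper71.NilCore
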